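import Pool.Agent.KS6_62.UU.SSE

/-!
Agreement of two maps without a common influential coordinate.
-/

set_option autoImplicit false

namespace Pool.Agent.KS6_62.UU

open Finset ComplexConjugate QQ

variable {q : ℕ} [NeZero q] {n : ℕ}

/-- the influence of a coordinate in low degrees -/
noncomputable def inf (F : X q n → ZMod q) (d : ℕ) (i : Fin n) : ℝ :=
  ∑ S, if S i ≠ 0 ∧ wt S ≤ d then ∑ a, ‖cf F S a‖ ^ 2 else 0

theorem sum_cf (F : X q n → ZMod q) : ∑ S, ∑ a, ‖cf F S a‖ ^ 2 = 1 := by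
  rw [sum_comm]
  simp only [norm_cf]
  exact sum_mu F

theorem inf_nonneg (F : X q n → ZMod q) (d : ℕ) (i : Fin n) : 0 ≤ inf F d i := by
  unfold inf
  refine sum_nonneg fun S _ => ?_
  split_ifs
  · exact sum_nonneg fun a _ => by positivity
  · exact le_rfl

theorem inf_le_one (F : X q n → ZMod q) (d : ℕ) (i : Fin n) : inf F d i ≤ 1 := by
  rw [← sum_cf F]
  unfold inf
  refine sum_le_sum fun S _ => ?_
  split_ifs
  · exact le_rfl
  · exact sum_nonneg fun a _ => by positivity

theorem sum_inf (F : X q n → ZMod q) (d : ℕ) : ∑ i, inf F d i ≤ d := by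
  unfold inf
  rw [sum_comm]
  have h1 : ∀ S : X q n, ∑ i, (if S i ≠ 0 ∧ wt S ≤ d then ∑ a, ‖cf F S a‖ ^ 2 else 0) ≤
      d * ∑ a, ‖cf F S a‖ ^ 2 := by
    intro S
    have h0 : 0 ≤ ∑ a, ‖cf F S a‖ ^ 2 := sum_nonneg fun a _ => by positivity
    by_cases h : wt S ≤ d
    · have h2 : ∑ i, (if S i ≠ 0 ∧ wt S ≤ d then ∑ a, ‖cf F S a‖ ^ 2 else 0) =
          wt S * ∑ a, ‖cf F S a‖ ^ 2 := by
        unfold wt
        push_cast
        rw [sum_mul]
        refine sum_congr rfl fun i _ => ?_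
        by_cases hi : S i = 0
        · simp [hi]
        · have : wt S ≤ d := h
          unfold wt at this
          simp [hi, this]
      rw [h2]
      gcongr
    · simp only [h, and_false, if_false, sum_const_zero]
      positivity
  calc _ ≤ ∑ S : X q n, d * ∑ a, ‖cf F S a‖ ^ 2 := sum_le_sum fun S _ => h1 S
    _ = d := by rw [← mul_sum, sum_cf, mul_one]

theorem card_inf (F : X q n → ZMod q) (d : ℕ) (τ : ℝ) (hτ : 0 < τ) :
    ((univ.filter fun i => τ ≤ inf F d i).card : ℝ) ≤ d / τ := by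
  rw [le_div_iff₀ hτ]
  calc ((univ.filter fun i => τ ≤ inf F d i).card : ℝ) * τ
      = ∑ i ∈ univ.filter fun i => τ ≤ inf F d i, τ := by simp
    _ ≤ ∑ i ∈ univ.filter fun i => τ ≤ inf F d i, inf F d i :=
      sum_le_sum fun i hi => (mem_filter.1 hi).2
    _ ≤ ∑ i, inf F d i := sum_le_sum_of_subset_of_nonneg (filter_subset _ _)
      fun i _ _ => inf_nonneg F d i
    _ ≤ d := sum_inf F d

/-- the normalised number of agreements -/
noncomputable def agr (ρ : ℝ) (F H : X q n → ZMod q) : ℝ :=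
  ∑ a, ∑ S, ρ ^ wt S * (cf H S a * conj (cf F S a)).re

theorem amgm (x y c : ℝ) (hc : 0 < c) : x * y ≤ (x ^ 2 / c + c * y ^ 2) / 2 := by
  have h : 0 ≤ (x - c * y) ^ 2 / c := by positivity
  have h2 : (x - c * y) ^ 2 / c = x ^ 2 / c - 2 * x * y + c * y ^ 2 := by
    field_simp
    ring
  linarith

open Classical in
/-- **Maps without common influential coordinates agree rarely.** -/
theorem edge (F H : X q n → ZMod q) (d k : ℕ) (τ ρ c e s lam : ℝ) (hτ : 0 < τ)
    (hρ : 0 ≤ ρ) (hρ1 : ρ ≤ 1) (hρk : ρ ^ (k + 1) ≤ 1 / 4) (hc : 0 < c) (he : 0 ≤ e)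
    (hτe : τ * (1 + q : ℝ) ^ d ≤ e ^ (k + 1)) (hlam : 2 * lam ≤ c ^ (4 * (k + 1)))
    (hs : 0 < s) (hcom : ∀ i, ¬ (s ^ 2 ≤ inf F d i ∧ s ^ 2 ≤ inf H d i)) :
    agr ρ F H ≤ c + q * (e / (2 * c)) +
      ((univ.filter fun a => lam < mu F a ∧ lam < mu H a).card : ℝ) + 2 * d / τ * s + ρ ^ d := by
  set J : Finset (Fin n) := univ.filter fun i => τ ≤ inf F d i ∨ τ ≤ inf H d i with hJ
  set P : X q n → Prop := fun S => wt S ≤ d ∧ ∀ i ∈ J, S i = 0 with hP
  set t : X q n → ZMod q → ℝ := fun S a => ‖cf F S a‖ * ‖cf H S a‖ with ht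
  have ht0 : ∀ S a, 0 ≤ t S a := fun S a => by positivity
  -- the three parts
  have h1 : agr ρ F H ≤ ∑ a, ∑ S, (if P S then ρ ^ wt S * t S a else 0) +
      ∑ i ∈ J, ∑ S, (if S i ≠ 0 ∧ wt S ≤ d then ∑ a, t S a else 0) +
      ρ ^ d * ∑ S, ∑ a, t S a := by
    have h2 : agr ρ F H ≤ ∑ S, ρ ^ wt S * ∑ a, t S a := by
      unfold agr
      rw [sum_comm]
      refine sum_le_sum fun S _ => ?_
      rw [mul_sum]
      refine sum_le_sum fun a _ => ?_
      gcongr
      refine (Complex.re_le_norm _).trans (le_of_eq ?_)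
      rw [norm_mul, RCLike.norm_conj, mul_comm]
    refine h2.trans ?_
    rw [sum_comm (f := fun a S => if P S then ρ ^ wt S * t S a else 0),
      sum_comm (f := fun i S => if S i ≠ 0 ∧ wt S ≤ d then ∑ a, t S a else 0), mul_sum,
      ← sum_add_distrib, ← sum_add_distrib]
    refine sum_le_sum fun S _ => ?_
    have h0 : 0 ≤ ∑ a, t S a := sum_nonneg fun a _ => ht0 S a
    have hpow : ρ ^ wt S ≤ 1 := pow_le_one₀ hρ hρ1
    have hmid : 0 ≤ ∑ i ∈ J, (if S i ≠ 0 ∧ wt S ≤ d then ∑ a, t S a else 0) :=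
      sum_nonneg fun i _ => by split_ifs <;> [exact h0; exact le_rfl]
    have hlast : 0 ≤ ρ ^ d * ∑ a, t S a := by positivity
    by_cases hPS : P S
    · simp only [hPS, if_true]
      rw [← mul_sum]
      linarith
    · simp only [hPS, if_false, sum_const_zero, zero_add]
      by_cases hw : wt S ≤ d
      · have h3 : ∃ i ∈ J, S i ≠ 0 := by
          by_contra hcon
          push Not at hcon
          exact hPS ⟨hw, hcon⟩
        obtain ⟨i, hi, hSi⟩ := h3
        have h4 : ∑ a, t S a ≤ ∑ i ∈ J, (if S i ≠ 0 ∧ wt S ≤ d then ∑ a, t S a else 0) := by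
          refine le_trans (le_of_eq ?_) (single_le_sum (fun j _ => ?_) hi)
          · simp [hSi, hw]
          · split_ifs <;> [exact h0; exact le_rfl]
        have h5 : ρ ^ wt S * ∑ a, t S a ≤ ∑ a, t S a := by nlinarith
        linarith
      · have h3 : ρ ^ wt S ≤ ρ ^ d := pow_le_pow_of_le_one hρ hρ1 (by omega)
        have h5 : ρ ^ wt S * ∑ a, t S a ≤ ρ ^ d * ∑ a, t S a := by gcongr
        linarith
  -- the last part
  have h3 : ∑ S, ∑ a, t S a ≤ 1 := by
    have h4 : ∀ S a, t S a ≤ (‖cf F S a‖ ^ 2 + ‖cf H S a‖ ^ 2) / 2 := by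
      intro S a
      simp only [ht]
      nlinarith [sq_nonneg (‖cf F S a‖ - ‖cf H S a‖)]
    calc ∑ S, ∑ a, t S a ≤ ∑ S, ∑ a, (‖cf F S a‖ ^ 2 + ‖cf H S a‖ ^ 2) / 2 :=
        sum_le_sum fun S _ => sum_le_sum fun a _ => h4 S a
      _ = (∑ S, ∑ a, ‖cf F S a‖ ^ 2 + ∑ S, ∑ a, ‖cf H S a‖ ^ 2) / 2 := by
        simp only [← sum_div, sum_add_distrib]
      _ = 1 := by rw [sum_cf, sum_cf]; norm_num
  -- the middle part
  have h4 : ∀ i, ∑ S, (if S i ≠ 0 ∧ wt S ≤ d then ∑ a, t S a else 0) ≤ s := by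
    intro i
    have key : ∀ F H : X q n → ZMod q, inf F d i ≤ s ^ 2 →
        ∑ S, (if S i ≠ 0 ∧ wt S ≤ d then ∑ a, ‖cf F S a‖ * ‖cf H S a‖ else 0) ≤ s := by
      intro F H hF
      have h5 : ∑ S, (if S i ≠ 0 ∧ wt S ≤ d then ∑ a, ‖cf F S a‖ * ‖cf H S a‖ else 0) ≤
          (inf F d i / s + s * inf H d i) / 2 := by
        unfold inf
        rw [sum_div, mul_sum, ← sum_add_distrib, sum_div]
        refine sum_le_sum fun S _ => ?_
        split_ifs
        · rw [sum_div, mul_sum, ← sum_add_distrib, sum_div]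
          exact sum_le_sum fun a _ => amgm _ _ _ hs
        · simp
      have h6 : inf F d i / s ≤ s := by
        rw [div_le_iff₀ hs, ← sq]
        exact hF
      have h7 : s * inf H d i ≤ s := by
        nlinarith [inf_le_one H d i]
      linarith
    by_cases hF : inf F d i ≤ s ^ 2
    · exact key F H hF
    · have hH : inf H d i ≤ s ^ 2 := by
        by_contra hH
        exact hcom i ⟨(not_le.1 hF).le, (not_le.1 hH).le⟩
      have := key H F hH
      simp only [ht]
      simpa only [mul_comm] using this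
  have h5 : (J.card : ℝ) ≤ 2 * d / τ := by
    have h6 : J ⊆ (univ.filter fun i => τ ≤ inf F d i) ∪ (univ.filter fun i => τ ≤ inf H d i) := by
      intro i hi
      rw [hJ, mem_filter] at hi
      simp only [mem_union, mem_filter, mem_univ, true_and]
      exact hi.2
    have h7 := (card_le_card h6).trans (card_union_le _ _)
    have h8 := card_inf F d τ hτ
    have h9 := card_inf H d τ hτ
    have h10 : (J.card : ℝ) ≤ ((univ.filter fun i => τ ≤ inf F d i).card : ℝ) +
        ((univ.filter fun i => τ ≤ inf H d i).card : ℝ) := by exact_mod_cast h7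
    have h11 : 2 * (d : ℝ) / τ = d / τ + d / τ := by ring
    linarith
  have h6 : ∑ i ∈ J, ∑ S, (if S i ≠ 0 ∧ wt S ≤ d then ∑ a, t S a else 0) ≤ 2 * d / τ * s := by
    calc _ ≤ ∑ i ∈ J, s := sum_le_sum fun i _ => h4 i
      _ = J.card * s := by simp
      _ ≤ _ := by gcongr
  -- the main part
  have hPd : ∀ S, P S → wt S ≤ d := fun S h => h.1
  have hinf : ∀ (F' : X q n → ZMod q), (∀ i, i ∉ J → inf F' d i ≤ τ) → ∀ a i,
      ∑ S, (if P S ∧ S i ≠ 0 then ‖cf F' S a‖ ^ 2 else 0) ≤ τ := by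
    intro F' hF' a i
    by_cases hi : i ∈ J
    · rw [sum_eq_zero]
      · exact hτ.le
      · intro S _
        rw [if_neg]
        rintro ⟨h, h'⟩
        exact h' (h.2 i hi)
    · refine le_trans ?_ (hF' i hi)
      unfold inf
      refine sum_le_sum fun S _ => ?_
      by_cases h : P S ∧ S i ≠ 0
      · rw [if_pos h, if_pos ⟨h.2, h.1.1⟩]
        exact single_le_sum (f := fun a => ‖cf F' S a‖ ^ 2) (fun b _ => by positivity)
          (mem_univ a)
      · rw [if_neg h]
        split_ifs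
        · exact sum_nonneg fun a _ => by positivity
        · exact le_rfl
  have hF : ∀ i, i ∉ J → inf F d i ≤ τ := by
    intro i hi
    by_contra h
    exact hi (by rw [hJ, mem_filter]; exact ⟨mem_univ _, Or.inl (not_le.1 h).le⟩)
  have hH : ∀ i, i ∉ J → inf H d i ≤ τ := by
    intro i hi
    by_contra h
    exact hi (by rw [hJ, mem_filter]; exact ⟨mem_univ _, Or.inr (not_le.1 h).le⟩)
  have h7 : ∀ a, ∑ S, (if P S then ρ ^ wt S * t S a else 0) ≤
      c * (mu F a + mu H a) / 2 + e / (2 * c) + (if lam < mu F a ∧ lam < mu H a then 1 else 0) := by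
    intro a
    have key : ∀ F H : X q n → ZMod q, ∀ c' : ℝ, 0 < c' →
        ∑ S, (if P S then ρ ^ wt S * (‖cf F S a‖ * ‖cf H S a‖) else 0) ≤
        (St F a P ρ / c' + c' * St H a P ρ) / 2 := by
      intro F H c' hc'
      unfold St
      rw [sum_div, mul_sum, ← sum_add_distrib, sum_div]
      refine sum_le_sum fun S _ => ?_
      split_ifs
      · have := mul_le_mul_of_nonneg_left (amgm ‖cf F S a‖ ‖cf H S a‖ c' hc')
          (pow_nonneg hρ (wt S))
        refine this.trans (le_of_eq ?_)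
        ring
      · simp
    have hmF := mu_nonneg F a
    have hmH := mu_nonneg H a
    have hlight : ∀ F H : X q n → ZMod q, (∀ i, i ∉ J → inf F d i ≤ τ) → mu F a ≤ lam →
        ∑ S, (if P S then ρ ^ wt S * (‖cf F S a‖ * ‖cf H S a‖) else 0) ≤
        c * (mu F a + mu H a) / 2 + e / (2 * c) := by
      intro F H hF hl
      have h8 := stab F a P d k τ ρ c e hτ.le hPd (hinf F hF a) hρ hρk he hτe (by linarith)
      have h9 := St_le H a P ρ hρ hρ1
      refine (key F H c hc).trans ?_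
      have h10 : St F a P ρ / c ≤ c * mu F a + e / c := by
        rw [div_le_iff₀ hc]
        have : (c * mu F a + e / c) * c = c ^ 2 * mu F a + e := by field_simp
        rw [this]
        exact h8
      have h11 : c * St H a P ρ ≤ c * mu H a := by gcongr
      have h12 : e / (2 * c) = e / c / 2 := by field_simp
      rw [h12]
      linarith
    have hind : (0 : ℝ) ≤ (if lam < mu F a ∧ lam < mu H a then 1 else 0) := by
      split_ifs <;> norm_num
    by_cases hl : mu F a ≤ lam
    · have := hlight F H hF hl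
      simp only [ht]
      linarith
    by_cases hl' : mu H a ≤ lam
    · have := hlight H F hH hl'
      have h8 : ∑ S, (if P S then ρ ^ wt S * t S a else 0) =
          ∑ S, (if P S then ρ ^ wt S * (‖cf H S a‖ * ‖cf F S a‖) else 0) := by
        simp only [ht, mul_comm ‖cf H _ a‖]
      rw [h8]
      linarith
    · rw [if_pos ⟨not_le.1 hl, not_le.1 hl'⟩]
      have h8 := key F H 1 one_pos
      have h9 := St_le F a P ρ hρ hρ1
      have h10 := St_le H a P ρ hρ hρ1
      have h11 := mu_le_one F a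
      have h12 := mu_le_one H a
      have h13 : 0 ≤ c * (mu F a + mu H a) / 2 := by positivity
      have h14 : 0 ≤ e / (2 * c) := by positivity
      simp only [ht]
      simp only [div_one, one_mul] at h8
      linarith
  have h8 : ∑ a, ∑ S, (if P S then ρ ^ wt S * t S a else 0) ≤ c + q * (e / (2 * c)) +
      ((univ.filter fun a => lam < mu F a ∧ lam < mu H a).card : ℝ) := by
    calc _ ≤ ∑ a, (c * (mu F a + mu H a) / 2 + e / (2 * c) +
          (if lam < mu F a ∧ lam < mu H a then 1 else 0)) := sum_le_sum fun a _ => h7 a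
      _ = _ := by
        rw [sum_add_distrib, sum_add_distrib, ← sum_div, ← mul_sum, sum_add_distrib, sum_mu,
          sum_mu, card_filter]
        simp [ZMod.card]
        ring
  have h9 : ρ ^ d * ∑ S, ∑ a, t S a ≤ ρ ^ d := by
    have : 0 ≤ ρ ^ d := by positivity
    nlinarith
  linarith

/-! ### Change of coordinates -/

theorem mu_comp (G : X q n → ZMod q) (π : Equiv.Perm (Fin n)) (r : Equiv.Perm (ZMod q))
    (a : ZMod q) :
    mu (fun x => r.symm (G (fun j => r (x (π.symm j))))) a = mu G (r a) := by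
  unfold mu
  congr 2
  refine card_bij (fun x _ => fun j => r (x (π.symm j))) ?_ ?_ ?_
  · intro x hx
    rw [mem_filter] at hx ⊢
    refine ⟨mem_univ _, ?_⟩
    rw [← hx.2]
    simp
  · intro x _ y _ h
    ext i
    have := congrFun h (π i)
    simpa using this
  · intro y hy
    rw [mem_filter] at hy
    refine ⟨fun i => r.symm (y (π i)), ?_, ?_⟩
    · rw [mem_filter]
      refine ⟨mem_univ _, ?_⟩
      simp [hy.2]
    · ext j
      simp

theorem ch_perm (π : Equiv.Perm (Fin n)) (S y : X q n) :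
    ch S (fun i => y (π i)) = ch (fun j => S (π.symm j)) y := by
  unfold ch pr
  congr 1
  rw [← Equiv.sum_comp π (fun j => S (π.symm j) * y j)]
  simp

theorem cf_perm (G : X q n → ZMod q) (π : Equiv.Perm (Fin n)) (S : X q n) (a : ZMod q) :
    cf (fun x => G (fun j => x (π.symm j))) S a = cf G (fun j => S (π.symm j)) a := by
  unfold cf
  congr 1
  rw [← Equiv.sum_comp (Equiv.arrowCongr π.symm (Equiv.refl (ZMod q)))]
  refine sum_congr rfl fun y _ => ?_
  have h1 : (Equiv.arrowCongr π.symm (Equiv.refl (ZMod q))) y = fun i => y (π i) := by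
    ext i
    simp
  rw [h1, ch_perm]
  congr 1
  unfold ind
  simp

theorem inf_perm (G : X q n → ZMod q) (π : Equiv.Perm (Fin n)) (d : ℕ) (i : Fin n) :
    inf (fun x => G (fun j => x (π.symm j))) d i = inf G d (π i) := by
  unfold inf
  rw [← Equiv.sum_comp (Equiv.arrowCongr π (Equiv.refl (ZMod q)))
    (fun S => if S (π i) ≠ 0 ∧ wt S ≤ d then ∑ a, ‖cf G S a‖ ^ 2 else 0)]
  refine sum_congr rfl fun S _ => ?_
  have h1 : (Equiv.arrowCongr π (Equiv.refl (ZMod q))) S = fun j => S (π.symm j) := by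
    ext j
    simp
  have h2 : wt (fun j => S (π.symm j)) = wt S := by
    unfold wt
    exact Equiv.sum_comp π.symm (fun j => if S j = 0 then 0 else 1)
  rw [h1, h2]
  simp only [cf_perm, Equiv.symm_apply_apply]

end Pool.Agent.KS6_62.UU
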