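import Pool.Agent.KS6_62.QQ.Core

/-!
A bound for the fourth norm of a function on `(ZMod q) ^ n` all of whose influences are small.
-/

set_option autoImplicit false

namespace Pool.Agent.KS6_62.UU

open Finset ComplexConjugate QQ

/-- the product space -/
abbrev X (q n : ℕ) : Type := Fin n → ZMod q

/-- the number of the nonzero coordinates -/
def wt {q n : ℕ} (S : X q n) : ℕ := ∑ i, if S i = 0 then 0 else 1

variable {q : ℕ} [NeZero q]

omit [NeZero q] in
theorem wt_cons {n : ℕ} (β : ZMod q) (S : X q n) :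
    wt (Fin.cons β S : X q (n + 1)) = (if β = 0 then 0 else 1) + wt S := by
  unfold wt
  rw [Fin.sum_univ_succ]
  simp only [Fin.cons_zero, Fin.cons_succ]

theorem sum_cons {n : ℕ} {M : Type*} [AddCommMonoid M] (f : X q (n + 1) → M) :
    ∑ S, f S = ∑ S : X q n, ∑ β, f (Fin.cons β S) := by
  rw [← Fintype.sum_prod_type_right (f := fun p : ZMod q × X q n => f (Fin.cons p.1 p.2))]
  exact (Fintype.sum_equiv (Fin.consEquiv fun _ => ZMod q) _ _ fun _ => rfl).symm

/-- The expression in the bound of the fourth norm. -/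
noncomputable def RR (q : ℕ) [NeZero q] : (n : ℕ) → (X q n → ℝ) → ℝ
  | 0, A => (∑ S, A S) ^ 2
  | n + 1, A => RR q n (fun S => ∑ β : ZMod q, A (Fin.cons β S)) +
      q * RR q n (fun S => ∑ β : ZMod q, if β = 0 then 0 else A (Fin.cons β S))

theorem RR_le : ∀ (n : ℕ) (A : X q n → ℝ) (τ : ℝ), (∀ S, 0 ≤ A S) → 0 ≤ τ →
    (∀ i, ∑ S, (if S i = 0 then 0 else A S) ≤ τ) →
    RR q n A ≤ (∑ S, A S) ^ 2 + τ * ∑ S, A S * ((1 + q : ℝ) ^ wt S - 1)
  | 0, A, τ, hA, hτ, _ => by
    unfold RR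
    have : ∀ S : X q 0, wt S = 0 := fun S => by simp [wt]
    simp [this]
  | n + 1, A, τ, hA, hτ, hi => by
    unfold RR
    have e1 := RR_le n (fun S => ∑ β : ZMod q, A (Fin.cons β S)) τ
      (fun S => sum_nonneg fun _ _ => hA _) hτ (fun i => by
        refine le_trans (le_of_eq ?_) (hi i.succ)
        rw [sum_cons]
        refine sum_congr rfl fun S _ => ?_
        by_cases h : S i = 0 <;> simp [h])
    have e2 := RR_le n (fun S => ∑ β : ZMod q, if β = 0 then 0 else A (Fin.cons β S)) τ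
      (fun S => sum_nonneg fun β _ => by
        by_cases h : β = 0 <;> simp [h, hA]) hτ (fun i => by
        refine le_trans ?_ (hi i.succ)
        rw [sum_cons]
        refine sum_le_sum fun S _ => ?_
        by_cases h : S i = 0
        · simp [h]
        · simp only [h, if_false, Fin.cons_succ]
          refine sum_le_sum fun β _ => ?_
          by_cases h : β = 0 <;> simp [h, hA])
    have e3 : ∑ S : X q n, ∑ β : ZMod q, (if β = 0 then 0 else A (Fin.cons β S)) ≤ τ := by
      refine le_trans (le_of_eq ?_) (hi 0)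
      rw [sum_cons]
      simp
    have e4 : 0 ≤ ∑ S : X q n, ∑ β : ZMod q, (if β = 0 then 0 else A (Fin.cons β S)) :=
      sum_nonneg fun S _ => sum_nonneg fun β _ => by
        by_cases h : β = 0 <;> simp [h, hA]
    have e5 : (∑ S : X q n, ∑ β : ZMod q, (if β = 0 then 0 else A (Fin.cons β S))) ^ 2 ≤
        τ * ∑ S : X q n, ∑ β : ZMod q, (if β = 0 then 0 else A (Fin.cons β S)) := by
      rw [sq]
      gcongr
    have e6 : ∑ S : X q (n + 1), A S * ((1 + q : ℝ) ^ wt S - 1) =
        ∑ S : X q n, (∑ β : ZMod q, A (Fin.cons β S)) * ((1 + q : ℝ) ^ wt S - 1) +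
        q * (∑ S : X q n, ∑ β : ZMod q, (if β = 0 then 0 else A (Fin.cons β S))) +
        q * ∑ S : X q n, (∑ β : ZMod q, if β = 0 then 0 else A (Fin.cons β S)) *
          ((1 + q : ℝ) ^ wt S - 1) := by
      rw [sum_cons, mul_sum, mul_sum, ← sum_add_distrib, ← sum_add_distrib]
      refine sum_congr rfl fun S _ => ?_
      rw [sum_mul, sum_mul, mul_sum, mul_sum, ← sum_add_distrib, ← sum_add_distrib]
      refine sum_congr rfl fun β _ => ?_
      rw [wt_cons]
      by_cases h : β = 0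
      · simp [h]
      · simp only [h, if_false, pow_add, pow_one]
        ring
    rw [sum_cons (f := A), e6]
    have hq : (0 : ℝ) ≤ q := Nat.cast_nonneg _
    nlinarith [mul_le_mul_of_nonneg_left (e2.trans (add_le_add_left e5 _)) hq]

/-- If the weights are at most `d`. -/
theorem RR_le' (n : ℕ) (A : X q n → ℝ) (τ : ℝ) (d : ℕ) (hA : ∀ S, 0 ≤ A S) (hτ : 0 ≤ τ)
    (hi : ∀ i, ∑ S, (if S i = 0 then 0 else A S) ≤ τ) (hd : ∀ S, A S ≠ 0 → wt S ≤ d) :
    RR q n A ≤ (∑ S, A S) ^ 2 + τ * (1 + q : ℝ) ^ d * ∑ S, A S := by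
  refine (RR_le n A τ hA hτ hi).trans ?_
  rw [mul_assoc, mul_sum (a := (1 + q : ℝ) ^ d)]
  have h2 : ∑ S, A S * ((1 + q : ℝ) ^ wt S - 1) ≤ ∑ S, (1 + q : ℝ) ^ d * A S := by
    refine sum_le_sum fun S _ => ?_
    by_cases h : A S = 0
    · simp [h]
    · rw [mul_comm]
      have hq : (1 : ℝ) ≤ 1 + q := by simp
      have := pow_le_pow_right₀ hq (hd S h)
      exact mul_le_mul_of_nonneg_right (by linarith) (hA S)
  have := mul_le_mul_of_nonneg_left h2 hτ
  linarith

/-- Orthogonality of characters in one coordinate. -/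
theorem one_orth (β : ZMod q) : ∑ x : ZMod q, ZMod.stdAddChar (β * x) =
    if β = 0 then (q : ℂ) else 0 := by
  have h := AddChar.sum_mulShift β (ZMod.isPrimitive_stdAddChar q)
  simp only [mul_comm β]
  rw [h]
  split_ifs <;> simp

theorem one_parseval (u : ZMod q → ℂ) :
    ∑ x : ZMod q, ‖∑ β, ZMod.stdAddChar (β * x) * u β‖ ^ 2 = q * ∑ β, ‖u β‖ ^ 2 := by
  have h1 : ∀ x : ZMod q, ((‖∑ β, ZMod.stdAddChar (β * x) * u β‖ ^ 2 : ℝ) : ℂ) =
      ∑ β, ∑ β', u β * conj (u β') * ZMod.stdAddChar ((β - β') * x) := by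
    intro x
    push_cast
    rw [← Complex.mul_conj', map_sum, sum_mul_sum]
    refine sum_congr rfl fun S _ => sum_congr rfl fun S' _ => ?_
    rw [map_mul (starRingEnd ℂ), sub_mul, sub_eq_add_neg, AddChar.map_add_eq_mul,
      AddChar.map_neg_eq_conj]
    ring
  have h2 : ((∑ x : ZMod q, ‖∑ β, ZMod.stdAddChar (β * x) * u β‖ ^ 2 : ℝ) : ℂ) =
      ((q * ∑ β, ‖u β‖ ^ 2 : ℝ) : ℂ) := by
    rw [Complex.ofReal_sum]
    simp only [h1]
    rw [sum_comm]
    push_cast
    rw [mul_sum]
    refine sum_congr rfl fun β _ => ?_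
    rw [sum_comm, sum_eq_single β]
    · rw [← mul_sum, one_orth, sub_self, if_pos rfl, Complex.mul_conj']
      ring
    · intro β' _ hne
      rw [← mul_sum, one_orth, if_neg (sub_ne_zero.2 (Ne.symm hne)), mul_zero]
    · simp
  exact_mod_cast h2

/-- The inequality in one coordinate. -/
theorem one_coord {κ : Type} [Fintype κ] (v : ZMod q → κ → ℂ) :
    ∑ x : ZMod q, (nsq (fun z => ∑ β, ZMod.stdAddChar (β * x) *
      ((if β = 0 then 1 else 1 / 2) * v β z))) ^ 2 ≤
    q * ((∑ β, nsq (v β)) ^ 2 + q * (∑ β, if β = 0 then 0 else nsq (v β)) ^ 2) := by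
  set A := nsq (v 0) with hA
  set h : ZMod q → κ → ℂ := fun x z => ∑ β, ZMod.stdAddChar (β * x) *
    (if β = 0 then 0 else v β z) with hh
  set N : ZMod q → ℝ := fun x => nsq (h x) with hN
  set I : ZMod q → ℝ := fun x => ∑ z, (conj (v 0 z) * h x z).re with hI
  set B := ∑ β, (if β = 0 then 0 else nsq (v β)) with hB
  have hA0 : 0 ≤ A := nsq_nonneg _
  have hN0 : ∀ x, 0 ≤ N x := fun x => nsq_nonneg _
  have hB0 : 0 ≤ B := sum_nonneg fun β _ => by
    by_cases hβ : β = 0 <;> simp [hβ, nsq_nonneg]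
  have h1 : ∀ x : ZMod q, nsq (fun z => ∑ β, ZMod.stdAddChar (β * x) *
      ((if β = 0 then 1 else 1 / 2) * v β z)) = A + I x + N x / 4 := by
    intro x
    have h2 : ∀ z, ∑ β, ZMod.stdAddChar (β * x) * ((if β = 0 then 1 else 1 / 2) * v β z) =
        v 0 z + (1 / 2 : ℂ) * h x z := by
      intro z
      simp only [hh]
      rw [mul_sum, ← add_sum_erase _ _ (mem_univ (0 : ZMod q)),
        ← add_sum_erase univ (fun i => (1 / 2 : ℂ) * _) (mem_univ (0 : ZMod q))]
      simp only [if_true, zero_mul, AddChar.map_zero_eq_one, mul_zero, zero_add, one_mul]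
      congr 1
      refine sum_congr rfl fun β hβ => ?_
      rw [mem_erase] at hβ
      simp only [hβ.1, if_false]
      ring
    simp only [nsq, h2, hA, hI, hN]
    rw [sum_div, ← sum_add_distrib, ← sum_add_distrib]
    refine sum_congr rfl fun z _ => ?_
    rw [Complex.sq_norm, Complex.sq_norm, Complex.sq_norm]
    simp only [Complex.normSq_apply, Complex.add_re, Complex.add_im, Complex.mul_re,
      Complex.mul_im, Complex.conj_re, Complex.conj_im]
    norm_num
    ring
  have hIsq : ∀ x, I x ^ 2 ≤ A * N x := by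
    intro x
    have h3 : |I x| ≤ ∑ z, ‖v 0 z‖ * ‖h x z‖ := by
      refine (abs_sum_le_sum_abs _ _).trans (sum_le_sum fun z _ => ?_)
      refine (Complex.abs_re_le_norm _).trans ?_
      rw [norm_mul, RCLike.norm_conj]
    calc I x ^ 2 = |I x| ^ 2 := (sq_abs _).symm
      _ ≤ (∑ z, ‖v 0 z‖ * ‖h x z‖) ^ 2 := by gcongr
      _ ≤ A * N x := sum_mul_sq_le_sq_mul_sq _ _ _
  have hIsum : ∑ x, I x = 0 := by
    simp only [hI]
    rw [sum_comm]
    refine sum_eq_zero fun z _ => ?_
    rw [← Complex.re_sum, ← mul_sum]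
    simp only [hh]
    rw [sum_comm]
    have : ∑ β, ∑ x : ZMod q, ZMod.stdAddChar (β * x) * (if β = 0 then 0 else v β z) = 0 := by
      refine sum_eq_zero fun β _ => ?_
      rw [← sum_mul, one_orth]
      by_cases hβ : β = 0 <;> simp [hβ]
    rw [this]
    simp
  have hNsum : ∑ x, N x = q * B := by
    simp only [hN, nsq, hB, hh]
    rw [sum_comm]
    have : ∀ z : κ, ∑ x : ZMod q, ‖∑ β, ZMod.stdAddChar (β * x) *
        (if β = 0 then 0 else v β z)‖ ^ 2 = q * ∑ β, ‖if β = 0 then 0 else v β z‖ ^ 2 :=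
      fun z => one_parseval _
    simp only [this]
    rw [← mul_sum, sum_comm]
    congr 1
    refine sum_congr rfl fun β _ => ?_
    by_cases hβ : β = 0 <;> simp [hβ]
  have hNsq : ∑ x, N x ^ 2 ≤ (q * B) ^ 2 := by
    rw [← hNsum]
    exact sum_sq_le_sq_sum_of_nonneg fun x _ => hN0 x
  have hpt : ∀ x, (A + I x + N x / 4) ^ 2 ≤
      A ^ 2 + 2 * A * N x + 2 * A * I x + 3 / 16 * N x ^ 2 := by
    intro x
    nlinarith [hIsq x, sq_nonneg (I x - N x / 2)]
  simp only [h1]
  have htot : ∑ β, nsq (v β) = A + B := by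
    rw [← add_sum_erase _ _ (mem_univ (0 : ZMod q)), hB,
      ← add_sum_erase univ (fun β => if β = 0 then 0 else nsq (v β)) (mem_univ (0 : ZMod q))]
    simp only [if_true, zero_add]
    congr 1
    refine sum_congr rfl fun β hβ => ?_
    rw [mem_erase] at hβ
    simp [hβ.1]
  rw [htot]
  calc ∑ x, (A + I x + N x / 4) ^ 2
      ≤ ∑ x, (A ^ 2 + 2 * A * N x + 2 * A * I x + 3 / 16 * N x ^ 2) :=
        sum_le_sum fun x _ => hpt x
    _ = q * A ^ 2 + 2 * A * (q * B) + 3 / 16 * ∑ x, N x ^ 2 := by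
        rw [sum_add_distrib, sum_add_distrib, sum_add_distrib, ← mul_sum, ← mul_sum, ← mul_sum,
          hNsum, hIsum]
        simp [ZMod.card]
    _ ≤ q * A ^ 2 + 2 * A * (q * B) + 3 / 16 * (q * B) ^ 2 := by gcongr
    _ ≤ q * ((A + B) ^ 2 + q * B ^ 2) := by
        have hq : (0 : ℝ) ≤ q := Nat.cast_nonneg _
        nlinarith [mul_nonneg hq (sq_nonneg B), mul_nonneg hq (mul_nonneg hq (sq_nonneg B))]

/-- The character in one more coordinate. -/
theorem ch_cons {n : ℕ} (β x₀ : ZMod q) (S x : X q n) :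
    ch (Fin.cons β S : X q (n + 1)) (Fin.cons x₀ x : X q (n + 1)) =
      ZMod.stdAddChar (β * x₀) * ch S x := by
  unfold ch pr
  rw [Fin.sum_univ_succ]
  simp only [Fin.cons_zero, Fin.cons_succ]
  rw [AddChar.map_add_eq_mul]

/-- **The fourth norm of a function damped by `1 / 2`**. -/
theorem four : ∀ (n : ℕ) {κ : Type} [Fintype κ] (a : X q n → κ → ℂ),
    ∑ x : X q n, (nsq (ev (fun S z => (1 / 2 : ℂ) ^ wt S * a S z) x)) ^ 2 ≤
      (q : ℝ) ^ n * RR q n (fun S => nsq (a S))
  | 0, κ, _, a => by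
    unfold RR
    have h0 : ∀ S : X q 0, wt S = 0 := fun S => by simp [wt]
    have h1 : ∀ S x : X q 0, ch S x = 1 := fun S x => by simp [ch, pr]
    simp [h0, h1, ev, nsq]
  | n + 1, κ, _, a => by
    unfold RR
    rw [sum_cons]
    set F : ZMod q → X q n → κ → ℂ := fun β x =>
      ev (fun S z => (1 / 2 : ℂ) ^ wt S * a (Fin.cons β S) z) x with hF
    have h1 : ∀ (x : X q n) (x₀ : ZMod q),
        ev (fun S z => (1 / 2 : ℂ) ^ wt S * a S z) (Fin.cons x₀ x : X q (n + 1)) =
        fun z => ∑ β, ZMod.stdAddChar (β * x₀) * ((if β = 0 then 1 else 1 / 2) * F β x z) := by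
      intro x x₀
      ext z
      simp only [ev, hF]
      rw [sum_cons, sum_comm]
      refine sum_congr rfl fun β _ => ?_
      rw [mul_sum, mul_sum]
      refine sum_congr rfl fun S _ => ?_
      rw [ch_cons, wt_cons]
      by_cases hβ : β = 0
      · simp [hβ]
      · simp only [hβ, if_false, pow_add, pow_one]
        ring
    have h2 : ∀ x : X q n, ∑ x₀ : ZMod q,
        (nsq (ev (fun S z => (1 / 2 : ℂ) ^ wt S * a S z) (Fin.cons x₀ x : X q (n + 1)))) ^ 2 ≤
        q * ((∑ β, nsq (F β x)) ^ 2 + q * (∑ β, if β = 0 then 0 else nsq (F β x)) ^ 2) := by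
      intro x
      simp only [h1]
      exact one_coord _
    refine (sum_le_sum fun x _ => h2 x).trans ?_
    have h3 := four n (κ := ZMod q × κ) (fun S p => a (Fin.cons p.1 S) p.2)
    have h4 := four n (κ := ZMod q × κ) (fun S p => if p.1 = 0 then 0 else a (Fin.cons p.1 S) p.2)
    have h5 : ∀ x : X q n, nsq (ev (fun S (p : ZMod q × κ) =>
        (1 / 2 : ℂ) ^ wt S * a (Fin.cons p.1 S) p.2) x) = ∑ β, nsq (F β x) := by
      intro x
      simp only [nsq, hF, ev]
      rw [Fintype.sum_prod_type]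
    have h6 : ∀ x : X q n, nsq (ev (fun S (p : ZMod q × κ) =>
        (1 / 2 : ℂ) ^ wt S * (if p.1 = 0 then 0 else a (Fin.cons p.1 S) p.2)) x) =
        ∑ β, if β = 0 then 0 else nsq (F β x) := by
      intro x
      simp only [nsq, hF, ev]
      rw [Fintype.sum_prod_type]
      refine sum_congr rfl fun β _ => ?_
      by_cases hβ : β = 0 <;> simp [hβ]
    have h7 : (fun S : X q n => nsq (fun p : ZMod q × κ => a (Fin.cons p.1 S) p.2)) =
        fun S => ∑ β : ZMod q, nsq (a (Fin.cons β S)) := by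
      ext S
      simp only [nsq]
      rw [Fintype.sum_prod_type]
    have h8 : (fun S : X q n => nsq (fun p : ZMod q × κ =>
        if p.1 = 0 then 0 else a (Fin.cons p.1 S) p.2)) =
        fun S => ∑ β : ZMod q, if β = 0 then 0 else nsq (a (Fin.cons β S)) := by
      ext S
      simp only [nsq]
      rw [Fintype.sum_prod_type]
      refine sum_congr rfl fun β _ => ?_
      by_cases hβ : β = 0 <;> simp [hβ]
    simp only [h5, h7] at h3
    simp only [h6, h8] at h4
    rw [← mul_sum, sum_add_distrib, ← mul_sum, pow_succ]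
    have hq : (0 : ℝ) ≤ q := Nat.cast_nonneg _
    nlinarith [mul_le_mul_of_nonneg_left h3 hq,
      mul_le_mul_of_nonneg_left h4 (mul_nonneg hq hq)]

end Pool.Agent.KS6_62.UU
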