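import Pool.Agent.KS6_62.UU.Edge

/-!
Soundness of the reduction: from an assignment with many agreements to a labelling of the game.
-/

set_option autoImplicit false

namespace Pool.Agent.KS6_62.UU

open Finset ComplexConjugate QQ

variable {q : ℕ} [NeZero q] {R M N : ℕ} [NeZero M]

/-- the number of accepting choices of the verifier for one edge -/
def acc (M : ℕ) [NeZero M] (rs : Fin N → Equiv.Perm (ZMod q)) (f g : X q R → ZMod q)
    (π : Equiv.Perm (Fin R)) : ℕ :=
  ∑ l, ∑ x : X q R, ∑ w : Fin R → Fin M × ZMod q,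
    if rs l (f x) = g (fun j => rs l (noise x w (π.symm j))) then 1 else 0

/-- the number of all choices of the verifier -/
def tot (q R M N : ℕ) : ℕ := N * q ^ R * (M * q) ^ R

omit [NeZero M] in
theorem acc_le_tot [NeZero M] (rs : Fin N → Equiv.Perm (ZMod q)) (f g : X q R → ZMod q)
    (π : Equiv.Perm (Fin R)) : acc M rs f g π ≤ tot q R M N := by
  unfold acc tot
  calc _ ≤ ∑ l : Fin N, ∑ x : X q R, ∑ w : Fin R → Fin M × ZMod q, 1 := by
        refine sum_le_sum fun l _ => sum_le_sum fun x _ => sum_le_sum fun w _ => ?_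
        split_ifs <;> simp
    _ = _ := by
      simp [ZMod.card]
      ring

/-- the candidates for a left vertex -/
noncomputable def Lu (d : ℕ) (s : ℝ) (f : X q R → ZMod q) : Finset (Fin R) :=
  open Classical in univ.filter fun i => s ^ 2 ≤ inf f d i

/-- the candidates for a right vertex -/
noncomputable def Lv (d : ℕ) (s : ℝ) (rs : Fin N → Equiv.Perm (ZMod q)) (g : X q R → ZMod q) :
    Finset (Fin R) :=
  open Classical in univ.biUnion fun l => Lu d s (fun x => (rs l).symm (g (fun j => rs l (x j))))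

theorem card_Lu (d : ℕ) (s : ℝ) (hs : 0 < s) (f : X q R → ZMod q) :
    ((Lu d s f).card : ℝ) ≤ d / s ^ 2 := by
  unfold Lu
  exact card_inf f d (s ^ 2) (by positivity)

theorem card_Lv (d : ℕ) (s : ℝ) (hs : 0 < s) (rs : Fin N → Equiv.Perm (ZMod q))
    (g : X q R → ZMod q) : ((Lv d s rs g).card : ℝ) ≤ N * (d / s ^ 2) := by
  classical
  unfold Lv
  calc _ ≤ ((∑ l : Fin N, (Lu d s (fun x => (rs l).symm (g (fun j => rs l (x j))))).card : ℕ) : ℝ) := by
        exact_mod_cast card_biUnion_le
    _ = ∑ l : Fin N, ((Lu d s (fun x => (rs l).symm (g (fun j => rs l (x j))))).card : ℝ) := by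
        push_cast
        rfl
    _ ≤ ∑ l : Fin N, (d / s ^ 2 : ℝ) := sum_le_sum fun l _ => card_Lu d s hs _
    _ = _ := by simp

theorem card_heavy (f : X q R → ZMod q) (lam : ℝ) (hlam : 0 < lam) :
    ((univ.filter fun a => lam < mu f a).card : ℝ) ≤ 1 / lam := by
  rw [le_div_iff₀ hlam]
  calc ((univ.filter fun a => lam < mu f a).card : ℝ) * lam
      = ∑ a ∈ univ.filter fun a => lam < mu f a, lam := by simp
    _ ≤ ∑ a ∈ univ.filter fun a => lam < mu f a, mu f a :=
      sum_le_sum fun i hi => (mem_filter.1 hi).2.le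
    _ ≤ ∑ a, mu f a := sum_le_sum_of_subset_of_nonneg (filter_subset _ _)
      fun i _ _ => mu_nonneg f i
    _ = 1 := sum_mu f

/-- An edge without a common candidate. -/
theorem acc_le (rs : Fin N → Equiv.Perm (ZMod q)) (f g : X q R → ZMod q)
    (π : Equiv.Perm (Fin R)) (d k : ℕ) (τ c e s lam η : ℝ) (hτ : 0 < τ)
    (hρk : (1 - 1 / M : ℝ) ^ (k + 1) ≤ 1 / 4) (hc : 0 < c) (he : 0 ≤ e)
    (hτe : τ * (1 + q : ℝ) ^ d ≤ e ^ (k + 1)) (hlam0 : 0 < lam)
    (hlam : 2 * lam ≤ c ^ (4 * (k + 1))) (hs : 0 < s) (hη : 0 ≤ η)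
    (hsp : ∀ a b, ((univ.filter fun l => rs l a = b).card : ℝ) ≤ η * N)
    (hcom : ∀ i, ¬ (i ∈ Lu d s f ∧ π i ∈ Lv d s rs g)) :
    (acc M rs f g π : ℝ) ≤ tot q R M N *
      (c + q * (e / (2 * c)) + η / lam ^ 2 + 2 * d / τ * s + (1 - 1 / M : ℝ) ^ d) := by
  set ρ : ℝ := 1 - 1 / M with hρdef
  have hM : (1 : ℝ) ≤ M := by exact_mod_cast NeZero.one_le
  have hρ : 0 ≤ ρ := by
    rw [hρdef, sub_nonneg, div_le_one (by linarith)]
    exact hM
  have hρ1 : ρ ≤ 1 := by
    rw [hρdef, sub_le_self_iff]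
    positivity
  set H : Fin N → X q R → ZMod q := fun l x => (rs l).symm (g (fun j => rs l (x (π.symm j))))
    with hH
  have h1 : (acc M rs f g π : ℝ) = ∑ l, (q : ℝ) ^ R * ((M * q : ℕ) : ℝ) ^ R * agr ρ f (H l) := by
    unfold acc
    push_cast
    refine sum_congr rfl fun l _ => ?_
    have h2 := agree (M := M) f (H l)
    unfold agr
    push_cast at h2
    rw [← h2]
    refine sum_congr rfl fun x _ => sum_congr rfl fun w _ => ?_
    simp only [hH, Equiv.eq_symm_apply]
  have h2 : ∀ l, agr ρ f (H l) ≤ c + q * (e / (2 * c)) +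
      ((univ.filter fun a => lam < mu f a ∧ lam < mu g (rs l a)).card : ℝ) +
      2 * d / τ * s + ρ ^ d := by
    intro l
    have h3 := edge f (H l) d k τ ρ c e s lam hτ hρ hρ1 hρk hc he hτe hlam hs (by
      rintro i ⟨hi, hi'⟩
      refine hcom i ⟨?_, ?_⟩
      · unfold Lu
        rw [mem_filter]
        exact ⟨mem_univ _, hi⟩
      · unfold Lv
        rw [mem_biUnion]
        refine ⟨l, mem_univ _, ?_⟩
        unfold Lu
        rw [mem_filter]
        refine ⟨mem_univ _, ?_⟩
        rw [← inf_perm (fun x => (rs l).symm (g (fun j => rs l (x j)))) π d i]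
        exact hi')
    refine h3.trans (le_of_eq ?_)
    have h4 : ∀ a, mu (H l) a = mu g (rs l a) := fun a => mu_comp g π (rs l) a
    simp only [h4]
  have h3 : ∑ l, ((univ.filter fun a => lam < mu f a ∧ lam < mu g (rs l a)).card : ℝ) ≤
      N * (η / lam ^ 2) := by
    have h4 : ∀ l, ((univ.filter fun a => lam < mu f a ∧ lam < mu g (rs l a)).card : ℝ) =
        ∑ a ∈ univ.filter fun a => lam < mu f a, ∑ b ∈ univ.filter fun b => lam < mu g b,
          (if rs l a = b then (1 : ℝ) else 0) := by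
      intro l
      rw [card_filter]
      push_cast
      rw [sum_filter]
      refine sum_congr rfl fun a _ => ?_
      by_cases ha : lam < mu f a
      · simp only [ha, true_and, if_true]
        rw [sum_ite_eq]
        simp
      · simp [ha]
    simp only [h4]
    rw [sum_comm]
    have h5 : ∀ a, ∑ l, ∑ b ∈ univ.filter fun b => lam < mu g b,
        (if rs l a = b then (1 : ℝ) else 0) ≤ (1 / lam) * (η * N) := by
      intro a
      rw [sum_comm]
      calc _ ≤ ∑ b ∈ univ.filter fun b => lam < mu g b, η * N := by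
            refine sum_le_sum fun b _ => ?_
            refine le_trans (le_of_eq ?_) (hsp a b)
            rw [card_filter]
            push_cast
            rfl
        _ = (univ.filter fun b => lam < mu g b).card * (η * N) := by simp
        _ ≤ (1 / lam) * (η * N) := by
          gcongr
          exact card_heavy g lam hlam0
    calc _ ≤ ∑ a ∈ univ.filter fun a => lam < mu f a, (1 / lam) * (η * N) :=
          sum_le_sum fun a _ => h5 a
      _ = (univ.filter fun a => lam < mu f a).card * ((1 / lam) * (η * N)) := by simp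
      _ ≤ (1 / lam) * ((1 / lam) * (η * N)) := by
        gcongr
        exact card_heavy f lam hlam0
      _ = _ := by field_simp
  have hQ : (0 : ℝ) ≤ (q : ℝ) ^ R * ((M * q : ℕ) : ℝ) ^ R := by positivity
  rw [h1, ← mul_sum]
  calc (q : ℝ) ^ R * ((M * q : ℕ) : ℝ) ^ R * ∑ l, agr ρ f (H l)
      ≤ (q : ℝ) ^ R * ((M * q : ℕ) : ℝ) ^ R * (N * (c + q * (e / (2 * c)) + η / lam ^ 2 +
          2 * d / τ * s + ρ ^ d)) := by
        gcongr
        calc ∑ l, agr ρ f (H l) ≤ ∑ l, (c + q * (e / (2 * c)) +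
              ((univ.filter fun a => lam < mu f a ∧ lam < mu g (rs l a)).card : ℝ) +
              2 * d / τ * s + ρ ^ d) := sum_le_sum fun l _ => h2 l
          _ = N * (c + q * (e / (2 * c)) + 2 * d / τ * s + ρ ^ d) +
              ∑ l, ((univ.filter fun a => lam < mu f a ∧ lam < mu g (rs l a)).card : ℝ) := by
            rw [sum_add_distrib, sum_add_distrib, sum_add_distrib]
            simp only [sum_const, card_univ, Fintype.card_fin, nsmul_eq_mul]
            ring
          _ ≤ _ := by
            rw [show N * (c + q * (e / (2 * c)) + η / lam ^ 2 + 2 * d / τ * s + ρ ^ d) =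
              N * (c + q * (e / (2 * c)) + 2 * d / τ * s + ρ ^ d) + N * (η / lam ^ 2) by ring]
            linarith
    _ = _ := by
      unfold tot
      push_cast
      ring

/-! ### Choice of labels -/

theorem choose_label {ι U : Type*} [DecidableEq U] (E : Finset ι) (src : ι → U) {K : ℕ}
    (hK : 0 < K) (j : ι → Fin K) :
    ∃ α : U → Fin K, E.card ≤ K * (E.filter fun e => α (src e) = j e).card := by
  have h1 : ∀ u : U, ∃ j₀ : Fin K, (E.filter fun e => src e = u).card ≤
      K * ((E.filter fun e => src e = u).filter fun e => j e = j₀).card := by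
    intro u
    by_contra hcon
    push Not at hcon
    set Eu := E.filter fun e => src e = u with hEu
    have h2 : ∑ j₀ : Fin K, (Eu.filter fun e => j e = j₀).card = Eu.card :=
      (card_eq_sum_card_fiberwise (f := j) (s := Eu) (t := univ)
        (fun _ _ => mem_coe.2 (mem_univ _))).symm
    have h3 : ∑ j₀ : Fin K, K * (Eu.filter fun e => j e = j₀).card < ∑ j₀ : Fin K, Eu.card :=
      sum_lt_sum_of_nonempty ⟨⟨0, hK⟩, mem_univ _⟩ fun j₀ _ => hcon j₀
    rw [← mul_sum, h2] at h3
    simp at h3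
  choose α hα using h1
  refine ⟨α, ?_⟩
  have h2 : E.card = ∑ u ∈ E.image src, (E.filter fun e => src e = u).card :=
    card_eq_sum_card_fiberwise (fun e he => mem_coe.2 (mem_image_of_mem _ he))
  have h3 : (E.filter fun e => α (src e) = j e).card =
      ∑ u ∈ E.image src, ((E.filter fun e => α (src e) = j e).filter fun e => src e = u).card :=
    card_eq_sum_card_fiberwise (fun e he => mem_coe.2
      (mem_image_of_mem _ (mem_filter.1 he).1))
  rw [h2, h3, mul_sum]
  refine sum_le_sum fun u _ => (hα u).trans (Nat.mul_le_mul_left _ (card_le_card ?_))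
  intro e he
  simp only [mem_filter] at he ⊢
  exact ⟨⟨he.1.1, by rw [he.1.2, he.2]⟩, he.1.2⟩

theorem exists_enum {R K : ℕ} (hR : 0 < R) (L : Finset (Fin R)) (hL : L.card ≤ K) :
    ∃ en : Fin K → Fin R, ∀ i ∈ L, ∃ j, en j = i := by
  have h1 : Fintype.card L ≤ Fintype.card (Fin K) := by simpa using hL
  obtain ⟨emb⟩ := Function.Embedding.nonempty_of_card_le h1
  refine ⟨Function.extend emb Subtype.val (fun _ => ⟨0, hR⟩), fun i hi => ⟨emb ⟨i, hi⟩, ?_⟩⟩
  rw [emb.injective.extend_apply]

/-- **Soundness.** -/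
theorem sound (M : ℕ) [NeZero M] (hM : 2 ≤ M) (δ : ℝ) (hδ : 0 < δ) :
    ∀ (q : ℕ) [NeZero q] (N : ℕ) (rs : Fin N → Equiv.Perm (ZMod q)),
      (∀ a b, ((univ.filter fun l => rs l a = b).card : ℝ) ≤
        (((δ / 10) ^ (8 * M) / 2) ^ 2 * (δ / 10)) * N) →
      ∃ δ' : ℝ, 0 < δ' ∧ ∀ (R : ℕ), 0 < R → ∀ (ι U V : Type) [Fintype ι] (src : ι → U) (dst : ι → V)
        (π : ι → Equiv.Perm (Fin R)) (f : U → X q R → ZMod q) (g : V → X q R → ZMod q),
        (∀ (A : U → Fin R) (B : V → Fin R),
          ((univ.filter fun e => π e (A (src e)) = B (dst e)).card : ℝ) ≤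
            δ' * Fintype.card ι) →
        ((∑ e, acc M rs (f (src e)) (g (dst e)) (π e) : ℕ) : ℝ) ≤
          δ * (Fintype.card ι * tot q R M N) := by
  have hM1 : (2 : ℝ) ≤ M := by exact_mod_cast hM
  set ρ : ℝ := 1 - 1 / M with hρdef
  have hρ : 0 ≤ ρ := by
    rw [hρdef, sub_nonneg, div_le_one (by linarith)]
    linarith
  have hρ1 : ρ < 1 := by
    rw [hρdef, sub_lt_self_iff]
    positivity
  obtain ⟨k, hk⟩ : ∃ k, k + 1 = 2 * M := ⟨2 * M - 1, by omega⟩
  have hρM : ρ ^ M ≤ 1 / 2 := by
    have h1 := Real.one_sub_div_pow_le_exp_neg (n := M) (t := 1) (by linarith)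
    have h2 := Real.exp_neg_one_lt_d9
    rw [hρdef]
    linarith
  have hρk : ρ ^ (k + 1) ≤ 1 / 4 := by
    rw [hk, mul_comm, pow_mul]
    have h0 : 0 ≤ ρ ^ M := pow_nonneg hρ M
    nlinarith
  set c : ℝ := δ / 10 with hcdef
  have hc : 0 < c := by positivity
  set lam : ℝ := c ^ (8 * M) / 2 with hlamdef
  have hk4 : 8 * M = 4 * (k + 1) := by omega
  have hlam0 : 0 < lam := by positivity
  have hlam : 2 * lam ≤ c ^ (4 * (k + 1)) := by
    rw [hlamdef, hk4]
    linarith
  intro q _ N rs hsp
  set η : ℝ := lam ^ 2 * c with hηdef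
  have hq0 : (0 : ℝ) < q := by exact_mod_cast NeZero.pos q
  set e : ℝ := 2 * c * (δ / 10) / q with hedef
  have he : 0 < e := by positivity
  obtain ⟨d, hd⟩ := exists_pow_lt_of_lt_one (show (0 : ℝ) < δ / 10 by positivity) hρ1
  set τ : ℝ := e ^ (k + 1) / (1 + q : ℝ) ^ d with hτdef
  have hτ : 0 < τ := by positivity
  have hτe : τ * (1 + q : ℝ) ^ d ≤ e ^ (k + 1) := by
    rw [hτdef, div_mul_cancel₀]
    positivity
  set s : ℝ := (δ / 10) * τ / (2 * (d + 1)) with hsdef
  have hs : 0 < s := by positivity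
  obtain ⟨K, hK⟩ := exists_nat_ge ((N + 1 : ℝ) * (d / s ^ 2) + 1)
  have hds : 0 ≤ (d : ℝ) / s ^ 2 := by positivity
  have hN0 : (0 : ℝ) ≤ N := Nat.cast_nonneg _
  have hK0 : 0 < K := by
    have : (0 : ℝ) < K := lt_of_lt_of_le (by positivity) hK
    exact_mod_cast this
  have hK0' : (0 : ℝ) < K := by exact_mod_cast hK0
  refine ⟨(δ / 2) / (K : ℝ) ^ 2, by positivity, fun R hR ι U V _ src dst π f g hval => ?_⟩
  classical
  set good : Finset ι := univ.filter fun e => ∃ i, i ∈ Lu d s (f (src e)) ∧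
    π e i ∈ Lv d s rs (g (dst e)) with hgood
  -- the good edges
  have h1 : (good.card : ℝ) ≤ (δ / 2) * Fintype.card ι := by
    have h2 : ∀ e : ι, ∃ i : Fin R, e ∈ good → i ∈ Lu d s (f (src e)) ∧
        π e i ∈ Lv d s rs (g (dst e)) := by
      intro e
      by_cases he : e ∈ good
      · obtain ⟨i, hi⟩ := (mem_filter.1 he).2
        exact ⟨i, fun _ => hi⟩
      · exact ⟨⟨0, hR⟩, fun h => absurd h he⟩
    choose lab hlab using h2
    have h3 : ∀ u : U, ∃ en : Fin K → Fin R, ∀ i ∈ Lu d s (f u), ∃ j, en j = i := by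
      intro u
      apply exists_enum hR
      have h4 := card_Lu d s hs (f u)
      have h5 : ((Lu d s (f u)).card : ℝ) ≤ K := by nlinarith
      exact_mod_cast h5
    have h4 : ∀ v : V, ∃ en : Fin K → Fin R, ∀ i ∈ Lv d s rs (g v), ∃ j, en j = i := by
      intro v
      apply exists_enum hR
      have h4 := card_Lv d s hs rs (g v)
      have h5 : ((Lv d s rs (g v)).card : ℝ) ≤ K := by nlinarith
      exact_mod_cast h5
    choose enU henU using h3
    choose enV henV using h4
    have h5 : ∀ e : ι, ∃ j : Fin K, e ∈ good → enU (src e) j = lab e := by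
      intro e
      by_cases he : e ∈ good
      · obtain ⟨j, hj⟩ := henU (src e) (lab e) (hlab e he).1
        exact ⟨j, fun _ => hj⟩
      · exact ⟨⟨0, hK0⟩, fun h => absurd h he⟩
    have h6 : ∀ e : ι, ∃ j : Fin K, e ∈ good → enV (dst e) j = π e (lab e) := by
      intro e
      by_cases he : e ∈ good
      · obtain ⟨j, hj⟩ := henV (dst e) (π e (lab e)) (hlab e he).2
        exact ⟨j, fun _ => hj⟩
      · exact ⟨⟨0, hK0⟩, fun h => absurd h he⟩
    choose j1 hj1 using h5
    choose j2 hj2 using h6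
    obtain ⟨α, hα⟩ := choose_label good src hK0 j1
    obtain ⟨β, hβ⟩ := choose_label (good.filter fun e => α (src e) = j1 e) dst hK0 j2
    have h7 : good.card ≤ K * (K * (univ.filter fun e =>
        π e (enU (src e) (α (src e))) = enV (dst e) (β (dst e))).card) := by
      refine hα.trans (Nat.mul_le_mul_left _ (hβ.trans (Nat.mul_le_mul_left _ (card_le_card ?_))))
      intro e he
      simp only [mem_filter, mem_univ, true_and] at he ⊢
      rw [he.1.2, he.2, hj1 e he.1.1, hj2 e he.1.1]
    have h8 := hval (fun u => enU u (α u)) (fun v => enV v (β v))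
    have h9 : (good.card : ℝ) ≤ (K : ℝ) ^ 2 * ((univ.filter fun e =>
        π e (enU (src e) (α (src e))) = enV (dst e) (β (dst e))).card : ℝ) := by
      calc (good.card : ℝ) ≤ ((K * (K * (univ.filter fun e =>
          π e (enU (src e) (α (src e))) = enV (dst e) (β (dst e))).card) : ℕ) : ℝ) := by
            exact_mod_cast h7
        _ = _ := by
          push_cast
          ring
    calc (good.card : ℝ) ≤ _ := h9
      _ ≤ (K : ℝ) ^ 2 * ((δ / 2) / (K : ℝ) ^ 2 * Fintype.card ι) := by gcongr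
      _ = _ := by field_simp
  -- the other edges
  have h2 : ∀ e, e ∉ good → (acc M rs (f (src e)) (g (dst e)) (π e) : ℝ) ≤
      tot q R M N * (δ / 2) := by
    intro e' he'
    have h3 := acc_le rs (f (src e')) (g (dst e')) (π e') d k τ c e s lam η hτ hρk hc he.le hτe
      hlam0 hlam hs (by positivity) hsp (by
        rintro i hi
        exact he' (mem_filter.2 ⟨mem_univ _, i, hi⟩))
    refine h3.trans ?_
    gcongr
    have h4 : q * (e / (2 * c)) = δ / 10 := by
      rw [hedef]
      field_simp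
    have h5 : η / lam ^ 2 = δ / 10 := by
      rw [hηdef, ← hcdef]
      field_simp
    have h6 : 2 * d / τ * s ≤ δ / 10 := by
      have : 2 * d / τ * s = (δ / 10) * (d / (d + 1)) := by
        rw [hsdef]
        field_simp
      rw [this]
      have h7 : (d : ℝ) / (d + 1) ≤ 1 := by
        rw [div_le_one (by positivity)]
        linarith
      nlinarith
    rw [h4, h5]
    linarith [hd]
  have htot : (0 : ℝ) ≤ tot q R M N := Nat.cast_nonneg _
  calc ((∑ e, acc M rs (f (src e)) (g (dst e)) (π e) : ℕ) : ℝ)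
      = ∑ e, (acc M rs (f (src e)) (g (dst e)) (π e) : ℝ) := by push_cast; rfl
    _ ≤ ∑ e, ((if e ∈ good then (tot q R M N : ℝ) else 0) + tot q R M N * (δ / 2)) := by
      refine sum_le_sum fun e' _ => ?_
      by_cases he' : e' ∈ good
      · rw [if_pos he']
        have : (acc M rs (f (src e')) (g (dst e')) (π e') : ℝ) ≤ tot q R M N := by
          exact_mod_cast acc_le_tot rs _ _ _
        have h3 : 0 ≤ (tot q R M N : ℝ) * (δ / 2) := by positivity
        linarith
      · rw [if_neg he']
        linarith [h2 e' he']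
    _ = good.card * (tot q R M N : ℝ) + Fintype.card ι * (tot q R M N * (δ / 2)) := by
      rw [sum_add_distrib, ← sum_filter]
      simp
    _ ≤ (δ / 2) * Fintype.card ι * (tot q R M N : ℝ) +
        Fintype.card ι * (tot q R M N * (δ / 2)) := by gcongr
    _ = _ := by ring

end Pool.Agent.KS6_62.UU
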