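import Pool.Agent.KS6_62.UU.Raw

/-!
The Unique Games Conjecture is equivalent to the hardness of the gap problem for all sets of
permutations which carry a spread out distribution.
-/

set_option autoImplicit false

namespace Pool.Agent.KS6_62.UU

open Finset Pool.Agent.NPC

/-- The Unique Games Conjecture. -/
def UGC : Prop := ∀ ε δ : ℚ, 0 < ε → 0 < δ → ε + δ < 1 →
  ∃ q : ℕ, 0 < q ∧ Hard q Set.univ (1 - ε) δ

/-- The hardness of the gap problem for unique games with completeness almost `c` and arbitrarily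
small soundness. -/
def GapHard (c : ℚ) : Prop := ∀ ε δ : ℚ, 0 < ε → 0 < δ →
  ∃ q : ℕ, 0 < q ∧ Hard q Set.univ (c - ε) δ

section

variable (q R M N : ℕ) [NeZero q] [NeZero M] (rs : Fin N → Equiv.Perm (Fin q))

theorem count_ne (i : Fin R) :
    M * (univ.filter fun w : Fin R → Fin M × ZMod q => (w i).1 ≠ 0).card =
      (M - 1) * (M * q) ^ R := by
  have h1 : (univ.filter fun w : Fin R → Fin M × ZMod q => (w i).1 ≠ 0) =
      Fintype.piFinset (fun j => if j = i then
        (univ.filter fun p : Fin M × ZMod q => p.1 ≠ 0) else univ) := by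
    ext w
    rw [mem_filter, Fintype.mem_piFinset]
    constructor
    · rintro ⟨_, h⟩ j
      by_cases hj : j = i
      · subst hj
        simpa using h
      · simp [hj]
    · intro h
      have := h i
      simp only [if_true, mem_filter, mem_univ, true_and] at this
      exact ⟨mem_univ _, this⟩
  have h2 : (univ.filter fun p : Fin M × ZMod q => p.1 ≠ 0).card = (M - 1) * q := by
    have : (univ.filter fun p : Fin M × ZMod q => p.1 ≠ 0) =
        (univ.erase (0 : Fin M)) ×ˢ (univ : Finset (ZMod q)) := by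
      ext p
      simp
    rw [this, card_product, card_erase_of_mem (mem_univ _), card_univ, Fintype.card_fin,
      card_univ, ZMod.card]
  rw [h1, Fintype.card_piFinset, ← mul_prod_erase univ _ (mem_univ i)]
  simp only [if_true]
  rw [h2]
  have h3 : ∏ j ∈ univ.erase i, (if j = i then
        (univ.filter fun p : Fin M × ZMod q => p.1 ≠ 0) else univ).card = (M * q) ^ (R - 1) := by
    rw [prod_congr rfl (g := fun _ => M * q)]
    · simp
    · intro j hj
      rw [mem_erase] at hj
      rw [if_neg hj.1]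
      simp [ZMod.card]
  rw [h3]
  obtain ⟨R', rfl⟩ : ∃ R', R = R' + 1 := ⟨R - 1, by have := i.2; omega⟩
  rw [Nat.add_sub_cancel, pow_succ]
  ring

/-- Completeness for one edge. -/
theorem acc_dict (r : Fin N → Equiv.Perm (ZMod q)) (π : Equiv.Perm (Fin R)) (i j : Fin R)
    (h : π i = j) :
    (M - 1) * tot q R M N ≤ M * acc M r (fun x : X q R => x i) (fun y : X q R => y j) π := by
  unfold acc
  have h1 : ∀ l : Fin N, ∀ x : X q R,
      (univ.filter fun w : Fin R → Fin M × ZMod q => (w i).1 ≠ 0).card ≤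
      ∑ w : Fin R → Fin M × ZMod q, if r l (x i) = r l (noise x w (π.symm j)) then 1 else 0 := by
    intro l x
    rw [card_filter]
    refine sum_le_sum fun w _ => ?_
    by_cases hw : (w i).1 = 0
    · simp [hw]
    · rw [← h, Equiv.symm_apply_apply]
      simp [noise, hw]
  calc (M - 1) * tot q R M N = N * q ^ R * ((M - 1) * (M * q) ^ R) := by unfold tot; ring
    _ = N * q ^ R * (M *
        (univ.filter fun w : Fin R → Fin M × ZMod q => (w i).1 ≠ 0).card) := by rw [count_ne]
    _ = M * ∑ l : Fin N, ∑ x : X q R,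
        (univ.filter fun w : Fin R → Fin M × ZMod q => (w i).1 ≠ 0).card := by
      simp [ZMod.card]
      ring
    _ ≤ _ := Nat.mul_le_mul_left _ (sum_le_sum fun l _ => sum_le_sum fun x _ => h1 l x)

theorem length_newEdges (e : (ℕ × ℕ) × List ℕ) (π : Equiv.Perm (Fin R)) (he : e.2 = table π) :
    (newEdges (KK q R) (gads q R M N rs) e).length = tot q R M N := by
  have h := sum_newEdges q R M N rs (fun _ => 1) e π he
  simp only [List.map_const', List.sum_replicate, smul_eq_mul, mul_one] at h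
  rw [h]
  unfold tot
  simp [ZMod.card]
  ring

theorem length_red (G : Game) (hG : IsGame R Set.univ G) :
    (red (KK q R) (gads q R M N rs) G).edges.length = G.edges.length * tot q R M N := by
  show (G.edges.flatMap _).length = _
  rw [length_flatMap']
  have h : (G.edges.map fun e => (newEdges (KK q R) (gads q R M N rs) e).length) =
      G.edges.map fun _ => tot q R M N := by
    refine List.map_congr_left fun e he => ?_
    obtain ⟨π, _, hπ⟩ := (hG.2 e he).2.2
    exact length_newEdges q R M N rs e π hπ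
  rw [h]
  simp

theorem isGame_red (G : Game) (hG : IsGame R Set.univ G) (hN : 0 < N)
    (Γ : Set (Equiv.Perm (Fin q))) (hΓ : ∀ l, rs l ∈ Γ) :
    IsGame q Γ (red (KK q R) (gads q R M N rs) G) := by
  constructor
  · intro h
    have h1 := length_red q R M N rs G hG
    rw [h, List.length_nil] at h1
    have h2 : 0 < G.edges.length := List.length_pos_iff.2 hG.1
    have h3 : 0 < tot q R M N := by
      unfold tot
      have := NeZero.pos q
      have := NeZero.pos M
      positivity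
    have := Nat.mul_pos h2 h3
    omega
  · intro e he
    obtain ⟨e₀, he₀, he⟩ := List.mem_flatMap.1 (show e ∈ G.edges.flatMap _ from he)
    obtain ⟨p, hp, he⟩ := List.mem_flatMap.1 he
    obtain ⟨h1, h2, _⟩ := hG.2 e₀ he₀
    obtain ⟨π, _, rfl⟩ := List.mem_map.1 hp
    dsimp only at he
    split_ifs at he
    · obtain ⟨c, hc, rfl⟩ := List.mem_map.1 he
      obtain ⟨t, _, rfl⟩ := List.mem_map.1 hc
      refine ⟨?_, ?_, rs t.1, hΓ _, rfl⟩
      · show e₀.1.1 * KK q R + (code q R t.2.1 : ℕ) < G.1 * KK q R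
        have h3 := (code q R t.2.1).2
        calc e₀.1.1 * KK q R + (code q R t.2.1 : ℕ) < e₀.1.1 * KK q R + KK q R := by omega
          _ = (e₀.1.1 + 1) * KK q R := by ring
          _ ≤ G.1 * KK q R := Nat.mul_le_mul_right _ h1
      · show e₀.1.2 * KK q R + (code q R _ : ℕ) < G.2.1 * KK q R
        have h3 := (code q R (fun j => rz rs t.1 (noise t.2.1 t.2.2 (π.symm j)))).2
        calc e₀.1.2 * KK q R + (code q R _ : ℕ) < e₀.1.2 * KK q R + KK q R := by omega
          _ = (e₀.1.2 + 1) * KK q R := by ring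
          _ ≤ G.2.1 * KK q R := Nat.mul_le_mul_right _ h2
    · simp at he

theorem div_code (u : ℕ) (x : X q R) : (u * KK q R + (code q R x : ℕ)) / KK q R = u := by
  have hK : 0 < KK q R := lt_of_le_of_lt (Nat.zero_le _) (code q R x).2
  rw [mul_comm, Nat.mul_add_div hK, Nat.div_eq_of_lt (code q R x).2, add_zero]

theorem mod_code (u : ℕ) (x : X q R) :
    (u * KK q R + (code q R x : ℕ)) % KK q R = code q R x := by
  rw [mul_comm, Nat.mul_add_mod, Nat.mod_eq_of_lt (code q R x).2]

/-- the assignment read off from a labelling of the new game -/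
noncomputable def asg (a : ℕ → Fin q) (u : ℕ) (x : X q R) : ZMod q :=
  z q (a (u * KK q R + code q R x))

theorem sat_red (G : Game) (a b : ℕ → Fin q)
    (π : Fin G.edges.length → Equiv.Perm (Fin R)) (hπ : ∀ i, (G.edges[i.1]).2 = table (π i)) :
    sat q (red (KK q R) (gads q R M N rs) G) a b =
      ∑ i : Fin G.edges.length, acc M (rz rs) (asg q R a (G.edges[i.1]).1.1)
        (asg q R b (G.edges[i.1]).1.2) (π i) := by
  unfold sat
  rw [show (red (KK q R) (gads q R M N rs) G).edges =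
    G.edges.flatMap (newEdges (KK q R) (gads q R M N rs)) from rfl, countP_flatMap,
    ← Fin.sum_univ_fun_getElem]
  refine sum_congr rfl fun i _ => ?_
  rw [countP_eq_sum, sum_newEdges q R M N rs _ _ (π i) (hπ i)]
  unfold acc asg
  refine sum_congr rfl fun l _ => sum_congr rfl fun x _ => sum_congr rfl fun w _ => ?_
  simp only [decide_eq_true_eq, table_get]
  have h1 : ∀ s t : Fin q, (rz rs l (z q s) = z q t) ↔ rs l s = t := by
    intro s t
    unfold rz
    rw [Equiv.permCongr_apply, Equiv.symm_apply_apply, (z q).apply_eq_iff_eq]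
  simp only [h1]

theorem sat_typed (G : Game) (A B : ℕ → Fin R)
    (π : Fin G.edges.length → Equiv.Perm (Fin R)) (hπ : ∀ i, (G.edges[i.1]).2 = table (π i)) :
    sat R G A B = (univ.filter fun i : Fin G.edges.length =>
      π i (A (G.edges[i.1]).1.1) = B (G.edges[i.1]).1.2).card := by
  unfold sat
  rw [countP_eq_sum, ← Fin.sum_univ_fun_getElem, card_filter]
  refine sum_congr rfl fun i _ => ?_
  simp only [decide_eq_true_eq]
  refine if_congr ?_ rfl rfl
  rw [hπ i]
  exact table_get _ _ _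

end

/-- The spread which is needed. -/
def eta (ε δ : ℚ) : ℚ := (δ / 10) ^ (34 * ⌈1 / ε⌉₊)

theorem eta_pos (ε δ : ℚ) (hδ : 0 < δ) : 0 < eta ε δ := by
  unfold eta
  positivity

theorem ceil_pos' (ε : ℚ) (hε : 0 < ε) : 1 ≤ ⌈1 / ε⌉₊ :=
  Nat.one_le_iff_ne_zero.2 (Nat.pos_iff_ne_zero.1 (Nat.ceil_pos.2 (by positivity)))

theorem eta_le (ε δ : ℚ) (hε : 0 < ε) (hδ : 0 < δ) (hδ1 : δ ≤ 1) :
    eta ε δ ≤ ((δ / 10) ^ (8 * (2 * ⌈1 / ε⌉₊)) / 2) ^ 2 * (δ / 10) := by
  have h1 := ceil_pos' ε hε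
  set n := ⌈1 / ε⌉₊ with hn
  unfold eta
  rw [← hn]
  set t := δ / 10 with ht
  have ht0 : 0 < t := by positivity
  have ht1 : t ≤ 1 / 10 := by
    rw [ht]
    linarith
  have h2 : (t ^ (8 * (2 * n)) / 2) ^ 2 * t = t ^ (32 * n + 1) / 4 := by
    rw [div_pow, ← pow_mul, pow_succ t (32 * n)]
    have : 8 * (2 * n) * 2 = 32 * n := by ring
    rw [this]
    ring
  rw [h2]
  have h3 : 34 * n = (32 * n + 1) + (2 * n - 1) := by omega
  have h4 : t ^ (2 * n - 1) ≤ 1 / 4 := by
    calc t ^ (2 * n - 1) ≤ t ^ 1 := pow_le_pow_of_le_one ht0.le (by linarith) (by omega)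
      _ ≤ 1 / 4 := by rw [pow_one]; linarith
  rw [h3, pow_add]
  have h5 : 0 ≤ t ^ (32 * n + 1) := by positivity
  nlinarith

/-- The reduction proves hardness for every spread set of permutations. -/
theorem hard_of_gap (c : ℚ) (hc : c ≤ 1) (hU : GapHard c) (ε δ : ℚ) (hε : 0 < ε) (hδ : 0 < δ)
    (hδ1 : δ ≤ 1) (q : ℕ) (hq : 0 < q) (Γ : Set (Equiv.Perm (Fin q)))
    (hS : Spread q Γ (eta ε δ)) : Hard q Γ (c - ε) δ := by
  have hn1 := ceil_pos' ε hε
  set M := 2 * ⌈1 / ε⌉₊ with hMdef
  have hM2' : 2 ≤ M := by omega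
  have hM2 : (2 : ℚ) ≤ M := by exact_mod_cast hM2'
  have hMε : 2 ≤ M * ε := by
    have h1 : 1 / ε ≤ (⌈1 / ε⌉₊ : ℚ) := Nat.le_ceil _
    rw [div_le_iff₀ hε] at h1
    rw [hMdef]
    push_cast
    linarith
  have : NeZero M := ⟨by omega⟩
  have hsound := sound M hM2' (δ : ℝ) (by exact_mod_cast hδ)
  have hηle := eta_le ε δ hε hδ hδ1
  rw [← hMdef] at hηle
  have : NeZero q := ⟨hq.ne'⟩
  obtain ⟨N, rs, hN, hΓ, hsp⟩ := hS
  obtain ⟨δ₀, hδ₀, hsound'⟩ := hsound q N (rz rs) (by
    intro a b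
    have h1 := hsp ((z q).symm a) ((z q).symm b)
    have h2 : (univ.filter fun l => rz rs l a = b) =
        univ.filter fun l => rs l ((z q).symm a) = (z q).symm b := by
      refine filter_congr fun l _ => ?_
      unfold rz
      rw [Equiv.permCongr_apply, Equiv.eq_symm_apply]
    rw [h2]
    have h3 : ((univ.filter fun l => rs l ((z q).symm a) = (z q).symm b).card : ℚ) ≤
        (((δ / 10) ^ (8 * M) / 2) ^ 2 * (δ / 10)) * N := by
      refine h1.trans ?_
      gcongr
    have h4 : (((univ.filter fun l => rs l ((z q).symm a) = (z q).symm b).card : ℚ) : ℝ) ≤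
        (((((δ / 10) ^ (8 * M) / 2) ^ 2 * (δ / 10)) * N : ℚ) : ℝ) := by exact_mod_cast h3
    push_cast at h4
    exact h4)
  obtain ⟨δ', hδ1, hδ2⟩ := exists_rat_btwn hδ₀
  have hδ1' : (0 : ℚ) < δ' := by exact_mod_cast hδ1
  obtain ⟨R, hR, hHard⟩ := hU (ε / 2) δ' (by positivity) hδ1'
  intro L hL
  obtain ⟨f, hf, hfG, hfY, hfN⟩ := hHard L hL
  set K := KK q R with hK
  set T := gads q R M N rs with hT
  refine ⟨fun x => red K T (f x), ?_, fun x => isGame_red q R M N rs (f x) (hfG x) hN Γ hΓ,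
    fun x hx => ?_, fun x hx a b => ?_⟩
  · exact PC.toPolyTime_bits (poly_red K T) f (H642R2.TMSim.polyTime_toPC hf)
  · obtain ⟨A, B, hAB⟩ := hfY x hx
    have hG := hfG x
    have hπ : ∀ i : Fin (f x).edges.length, ∃ π : Equiv.Perm (Fin R),
        ((f x).edges[i.1]).2 = table π := by
      intro i
      obtain ⟨π, _, hπ⟩ := (hG.2 _ (List.getElem_mem i.2)).2.2
      exact ⟨π, hπ⟩
    choose π hπ using hπ
    have hKpos : 0 < KK q R := by
      unfold KK
      exact Fintype.card_pos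
    set lift : (ℕ → Fin R) → ℕ → Fin q := fun A m =>
      (z q).symm ((code q R).symm ⟨m % KK q R, Nat.mod_lt _ hKpos⟩ (A (m / KK q R))) with hlift
    have hasg : ∀ (A : ℕ → Fin R) (u : ℕ), asg q R (lift A) u = fun x : X q R => x (A u) := by
      intro A u
      ext x
      unfold asg
      rw [hlift]
      dsimp only
      rw [Equiv.apply_symm_apply, div_code]
      have h2 : (⟨(u * KK q R + (code q R x : ℕ)) % KK q R, Nat.mod_lt _ hKpos⟩ : Fin (KK q R)) =
          code q R x := Fin.ext (mod_code q R u x)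
      rw [h2, Equiv.symm_apply_apply]
    refine ⟨lift A, lift B, ?_⟩
    have h1 := sat_red q R M N rs (f x) (lift A) (lift B) π hπ
    have h2 := sat_typed R (f x) A B π hπ
    have h3 := length_red q R M N rs (f x) hG
    simp only [hasg] at h1
    rw [← hK, ← hT] at h1 h3
    have h4 : (M - 1) * tot q R M N * sat R (f x) A B ≤
        M * sat q (red K T (f x)) (lift A) (lift B) := by
      rw [h1, h2, card_filter, mul_sum, mul_sum]
      refine sum_le_sum fun i _ => ?_
      split_ifs with h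
      · rw [mul_one]
        exact acc_dict q R M N (rz rs) (π i) _ _ h
      · simp
    have h5 : ((M : ℚ) - 1) * tot q R M N * sat R (f x) A B ≤
        M * sat q (red K T (f x)) (lift A) (lift B) := by
      have : ((M - 1 : ℕ) : ℚ) = (M : ℚ) - 1 := by
        rw [Nat.cast_sub (by omega)]
        simp
      rw [← this]
      exact_mod_cast h4
    rw [h3]
    push_cast
    have hMpos : (0 : ℚ) < M := by linarith
    set Z : ℚ := ((f x).edges.length : ℚ) with hZ
    have hZ0 : 0 ≤ Z := Nat.cast_nonneg _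
    set TT : ℚ := (tot q R M N : ℚ) with hTT
    have hTT0 : 0 ≤ TT := Nat.cast_nonneg _
    have h6 : (M : ℚ) * ((c - ε) * (Z * TT)) ≤ M * sat q (red K T (f x)) (lift A) (lift B) := by
      have h7 : ((M : ℚ) - 1) * TT * ((c - ε / 2) * Z) ≤
          ((M : ℚ) - 1) * TT * sat R (f x) A B :=
        mul_le_mul_of_nonneg_left hAB (mul_nonneg (by linarith) hTT0)
      refine le_trans ?_ (h7.trans h5)
      have h8 : (M : ℚ) * (c - ε) ≤ ((M : ℚ) - 1) * (c - ε / 2) := by nlinarith
      calc (M : ℚ) * ((c - ε) * (Z * TT)) = (M * (c - ε)) * (Z * TT) := by ring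
        _ ≤ (((M : ℚ) - 1) * (c - ε / 2)) * (Z * TT) := by gcongr
        _ = _ := by ring
    exact le_of_mul_le_mul_left h6 hMpos
  · have hG := hfG x
    have hπ : ∀ i : Fin (f x).edges.length, ∃ π : Equiv.Perm (Fin R),
        ((f x).edges[i.1]).2 = table π := by
      intro i
      obtain ⟨π, _, hπ⟩ := (hG.2 _ (List.getElem_mem i.2)).2.2
      exact ⟨π, hπ⟩
    choose π hπ using hπ
    have h1 := sat_red q R M N rs (f x) a b π hπ
    have h3 := length_red q R M N rs (f x) hG
    rw [← hK, ← hT] at h1 h3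
    have h4 := hsound' R hR (Fin (f x).edges.length) ℕ ℕ (fun i => ((f x).edges[i.1]).1.1)
      (fun i => ((f x).edges[i.1]).1.2) π (asg q R a) (asg q R b) (by
        intro A B
        have h5 := hfN x hx A B
        rw [sat_typed R (f x) A B π hπ] at h5
        have h6 : ((univ.filter fun i : Fin (f x).edges.length =>
            π i (A ((f x).edges[i.1]).1.1) = B ((f x).edges[i.1]).1.2).card : ℝ) ≤
            (δ' : ℝ) * (f x).edges.length := by exact_mod_cast h5
        refine h6.trans ?_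
        rw [Fintype.card_fin]
        gcongr)
    rw [← h1, Fintype.card_fin] at h4
    rw [h3]
    have h7 : ((sat q (red K T (f x)) a b : ℕ) : ℝ) ≤
        ((δ * (((f x).edges.length * tot q R M N : ℕ) : ℚ) : ℚ) : ℝ) := by
      push_cast
      exact h4
    exact_mod_cast h7

/-! ### Monotonicity -/

theorem Hard.mono {q : ℕ} {Γ Γ' : Set (Equiv.Perm (Fin q))} {c c' s s' : ℚ} (hΓ : Γ ⊆ Γ')
    (hc : c' ≤ c) (hs : s ≤ s') (h : Hard q Γ c s) : Hard q Γ' c' s' := by
  intro L hL
  obtain ⟨f, h1, h2, h3, h4⟩ := h L hL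
  refine ⟨f, h1, fun x => ⟨(h2 x).1, fun e he => ?_⟩, fun x hx => ?_, fun x hx a b => ?_⟩
  · obtain ⟨h5, h6, r, hr, h7⟩ := (h2 x).2 e he
    exact ⟨h5, h6, r, hΓ hr, h7⟩
  · obtain ⟨a, b, hab⟩ := h3 x hx
    refine ⟨a, b, le_trans ?_ hab⟩
    gcongr
  · refine (h4 x hx a b).trans ?_
    gcongr

theorem Spread.mono {q : ℕ} {Γ Γ' : Set (Equiv.Perm (Fin q))} {η η' : ℚ} (hΓ : Γ ⊆ Γ')
    (hη : η ≤ η') (h : Spread q Γ η) : Spread q Γ' η' := by
  obtain ⟨N, r, hN, hr, h⟩ := h
  refine ⟨N, r, hN, fun l => hΓ (hr l), fun a b => (h a b).trans ?_⟩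
  gcongr

/-! ### The spread is necessary -/

theorem spread_of_hard {q : ℕ} {Γ : Set (Equiv.Perm (Fin q))} {c s : ℚ} (h : Hard q Γ c s) :
    Spread q Γ s := by
  have hE : InNP (∅ : Set (List Bool)) := by
    refine ⟨fun _ => [], 0, ?_, fun x => ?_⟩
    · exact PC.toPolyTime (PC.const _)
    · simp
  obtain ⟨f, h1, h2, h3, h4⟩ := h ∅ hE
  set G := f [] with hG
  have hG2 := h2 []
  rw [← hG] at hG2
  have hr : ∀ i : Fin G.edges.length, ∃ r : Equiv.Perm (Fin q), r ∈ Γ ∧
      (G.edges[i.1]).2 = table r := by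
    intro i
    obtain ⟨r, hr, hr'⟩ := (hG2.2 _ (List.getElem_mem i.2)).2.2
    exact ⟨r, hr, hr'⟩
  choose r hr hr' using hr
  refine ⟨G.edges.length, r, List.length_pos_iff.2 hG2.1, hr, fun a b => ?_⟩
  have h5 := h4 [] (by simp) (fun _ => a) (fun _ => b)
  rw [← hG, sat_typed q G (fun _ => a) (fun _ => b) r hr'] at h5
  exact h5

/-! ### Examples of sets of permutations -/

/-- Permutation groups. -/
theorem spread_group (q : ℕ) (G : Subgroup (Equiv.Perm (Fin q))) (η : ℚ) :
    Spread q (G : Set (Equiv.Perm (Fin q))) η ↔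
      ∀ a : Fin q, 1 ≤ η * ((MulAction.orbit G a).ncard : ℚ) := by
  classical
  constructor
  · rintro ⟨N, r, hN, hr, h⟩ a
    have h1 : (N : ℚ) = ∑ b ∈ univ.filter fun b => b ∈ MulAction.orbit G a,
        ((univ.filter fun l => r l a = b).card : ℚ) := by
      have := card_eq_sum_card_fiberwise (f := fun l => r l a) (s := (univ : Finset (Fin N)))
        (t := univ.filter fun b => b ∈ MulAction.orbit G a) (fun l _ => by
          rw [mem_coe, mem_filter]
          exact ⟨mem_univ _, ⟨⟨r l, hr l⟩, rfl⟩⟩)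
      rw [card_univ, Fintype.card_fin] at this
      exact_mod_cast this
    have h2 : (N : ℚ) ≤ ((univ.filter fun b => b ∈ MulAction.orbit G a).card : ℚ) * (η * N) := by
      calc (N : ℚ) = _ := h1
        _ ≤ ∑ b ∈ univ.filter fun b => b ∈ MulAction.orbit G a, η * N :=
          sum_le_sum fun b _ => h a b
        _ = _ := by simp
    have h3 : (MulAction.orbit G a).ncard = (univ.filter fun b => b ∈ MulAction.orbit G a).card := by
      rw [Set.ncard_eq_toFinset_card']
      congr 1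
      ext b
      simp
    rw [h3]
    have hN' : (0 : ℚ) < N := by exact_mod_cast hN
    have h4 : (N : ℚ) * 1 ≤ N * (η * ((univ.filter fun b => b ∈ MulAction.orbit G a).card : ℚ)) := by
      linarith
    exact le_of_mul_le_mul_left h4 hN'
  · intro h
    refine ⟨Fintype.card G, fun l => ((Fintype.equivFin G).symm l : Equiv.Perm (Fin q)),
      Fintype.card_pos, fun l => ((Fintype.equivFin G).symm l).2, fun a b => ?_⟩
    have h1 : (univ.filter fun l : Fin (Fintype.card G) =>
        ((Fintype.equivFin G).symm l : Equiv.Perm (Fin q)) a = b).card ≤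
        Fintype.card (MulAction.stabilizer G a) := by
      rcases (univ.filter fun l : Fin (Fintype.card G) =>
        ((Fintype.equivFin G).symm l : Equiv.Perm (Fin q)) a = b).eq_empty_or_nonempty with h2 | ⟨l₀, h2⟩
      · rw [h2]
        simp
      · rw [mem_filter] at h2
        set g₀ := (Fintype.equivFin G).symm l₀ with hg₀
        rw [← card_univ (α := MulAction.stabilizer G a)]
        refine card_le_card_of_injOn (fun l => if hl : g₀⁻¹ * (Fintype.equivFin G).symm l ∈
          MulAction.stabilizer G a then ⟨g₀⁻¹ * (Fintype.equivFin G).symm l, hl⟩ else 1)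
          (fun _ _ => mem_coe.2 (mem_univ _)) ?_
        intro l hl l' hl' hll
        have key : ∀ l, ((Fintype.equivFin G).symm l : Equiv.Perm (Fin q)) a = b →
            g₀⁻¹ * (Fintype.equivFin G).symm l ∈ MulAction.stabilizer G a := by
          intro l hl
          rw [MulAction.mem_stabilizer_iff]
          show ((g₀⁻¹ * (Fintype.equivFin G).symm l : G) : Equiv.Perm (Fin q)) a = a
          rw [Subgroup.coe_mul, Equiv.Perm.mul_apply, hl, Subgroup.coe_inv,
            Equiv.Perm.inv_eq_iff_eq]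
          exact h2.2.symm
        have hl1 := key l (mem_filter.1 (mem_coe.1 hl)).2
        have hl2 := key l' (mem_filter.1 (mem_coe.1 hl')).2
        dsimp only at hll
        rw [dif_pos hl1, dif_pos hl2, Subtype.mk.injEq, mul_right_inj] at hll
        exact (Fintype.equivFin G).symm.injective hll
    have h2 := MulAction.card_orbit_mul_card_stabilizer_eq_card_group G a
    have h3 : Fintype.card (MulAction.orbit G a) = (MulAction.orbit G a).ncard := by
      rw [Set.ncard_eq_toFinset_card', Set.toFinset_card]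
    have h4 : ((MulAction.orbit G a).ncard : ℚ) * Fintype.card (MulAction.stabilizer G a) =
        Fintype.card G := by
      rw [← h3]
      exact_mod_cast h2
    have h5 : ((univ.filter fun l : Fin (Fintype.card G) =>
        ((Fintype.equivFin G).symm l : Equiv.Perm (Fin q)) a = b).card : ℚ) ≤
        Fintype.card (MulAction.stabilizer G a) := by exact_mod_cast h1
    have h6 := h a
    have h7 : (0 : ℚ) ≤ Fintype.card (MulAction.stabilizer G a) := Nat.cast_nonneg _
    rw [← h4]
    nlinarith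

/-- The translations `x ↦ x + s` modulo `q` with `0 ≤ s < k`. -/
def shifts (q k : ℕ) : Set (Equiv.Perm (Fin q)) :=
  {r | ∃ s < k, ∀ x, (r x : ℕ) = ((x : ℕ) + s) % q}

theorem spread_shifts (q k : ℕ) (hk : 0 < k) (hkq : k ≤ q) : Spread q (shifts q k) (1 / k) := by
  have : NeZero q := ⟨by omega⟩
  refine ⟨k, fun l => Equiv.addRight (Fin.ofNat q l), hk, fun l => ⟨l, l.2, fun x => ?_⟩,
    fun a b => ?_⟩
  · rw [Equiv.coe_addRight, Fin.val_add, Fin.val_ofNat, Nat.mod_eq_of_lt (l.2.trans_le hkq)]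
  · have h1 : (univ.filter fun l : Fin k => Equiv.addRight (Fin.ofNat q l) a = b).card ≤ 1 := by
      rw [card_le_one]
      intro l hl l' hl'
      rw [mem_filter, Equiv.coe_addRight] at hl hl'
      have h2 := hl.2.trans hl'.2.symm
      rw [add_right_inj] at h2
      have h3 := congrArg Fin.val h2
      rw [Fin.val_ofNat, Fin.val_ofNat, Nat.mod_eq_of_lt (l.2.trans_le hkq),
        Nat.mod_eq_of_lt (l'.2.trans_le hkq)] at h3
      exact Fin.ext h3
    have h2 : ((univ.filter fun l : Fin k => Equiv.addRight (Fin.ofNat q l) a = b).card : ℚ) ≤ 1 := by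
      exact_mod_cast h1
    have hk' : (k : ℚ) ≠ 0 := by exact_mod_cast hk.ne'
    rw [one_div, inv_mul_cancel₀ hk']
    exact h2

theorem spread_univ (η : ℚ) (hη : 0 < η) : ∃ q : ℕ, 0 < q ∧ Spread q Set.univ η := by
  obtain ⟨q, hq⟩ := exists_nat_ge (max 1 (1 / η))
  have h1 : (1 : ℚ) ≤ q := (le_max_left _ _).trans hq
  have h2 : 1 / η ≤ q := (le_max_right _ _).trans hq
  have hq0 : 0 < q := by
    have : (1 : ℕ) ≤ q := by exact_mod_cast h1
    omega
  refine ⟨q, hq0, (spread_shifts q q hq0 le_rfl).mono (Set.subset_univ _) ?_⟩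
  rw [div_le_iff₀ hη] at h2
  rw [div_le_iff₀ (by exact_mod_cast hq0)]
  linarith

/-! ### The equivalences -/

theorem ugc_iff : UGC ↔ GapHard 1 := by
  constructor
  · intro h ε δ hε hδ
    obtain ⟨q, hq, hH⟩ := h (min ε (1 / 3)) (min δ (1 / 3)) (lt_min hε (by norm_num))
      (lt_min hδ (by norm_num)) (by
        have h1 := min_le_right ε (1 / 3)
        have h2 := min_le_right δ (1 / 3)
        linarith)
    refine ⟨q, hq, hH.mono le_rfl ?_ (min_le_left _ _)⟩
    have := min_le_left ε (1 / 3)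
    linarith
  · intro h ε δ hε hδ _
    exact h ε δ hε hδ

theorem gap_iff (c : ℚ) (hc : c ≤ 1) : GapHard c ↔ ∀ ε δ : ℚ, 0 < ε → 0 < δ → δ ≤ 1 →
    ∀ q : ℕ, 0 < q → ∀ Γ : Set (Equiv.Perm (Fin q)), Spread q Γ ((δ / 10) ^ (34 * ⌈1 / ε⌉₊)) →
      Hard q Γ (c - ε) δ := by
  constructor
  · intro h ε δ hε hδ hδ1 q hq Γ hS
    exact hard_of_gap c hc h ε δ hε hδ hδ1 q hq Γ hS
  · intro h ε δ hε hδ
    have hδ' : 0 < min δ 1 := lt_min hδ one_pos
    obtain ⟨q, hq, hS⟩ := spread_univ _ (eta_pos ε (min δ 1) hδ')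
    exact ⟨q, hq, (h ε (min δ 1) hε hδ' (min_le_right _ _) q hq Set.univ hS).mono le_rfl le_rfl
      (min_le_left _ _)⟩

theorem family_iff (c : ℚ) (hc : c ≤ 1) (Fam : ∀ q : ℕ, Set (Set (Equiv.Perm (Fin q)))) :
    (∀ ε δ : ℚ, 0 < ε → 0 < δ → ∃ q : ℕ, 0 < q ∧ ∃ Γ ∈ Fam q, Hard q Γ (c - ε) δ) ↔
      GapHard c ∧ ∀ η : ℚ, 0 < η → ∃ q : ℕ, 0 < q ∧ ∃ Γ ∈ Fam q, Spread q Γ η := by
  constructor
  · intro h
    refine ⟨fun ε δ hε hδ => ?_, fun η hη => ?_⟩
    · obtain ⟨q, hq, Γ, _, hH⟩ := h ε δ hε hδ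
      exact ⟨q, hq, hH.mono (Set.subset_univ _) le_rfl le_rfl⟩
    · obtain ⟨q, hq, Γ, hΓ, hH⟩ := h 1 η one_pos hη
      exact ⟨q, hq, Γ, hΓ, spread_of_hard hH⟩
  · rintro ⟨h1, h2⟩ ε δ hε hδ
    have hδ' : 0 < min δ 1 := lt_min hδ one_pos
    obtain ⟨q, hq, Γ, hΓ, hS⟩ := h2 _ (eta_pos ε (min δ 1) hδ')
    exact ⟨q, hq, Γ, hΓ, (hard_of_gap c hc h1 ε (min δ 1) hε hδ' (min_le_right _ _) q hq Γ hS).mono
      le_rfl le_rfl (min_le_left _ _)⟩

theorem shifts_iff (c : ℚ) (hc : c ≤ 1) (Q : ℕ → ℕ) (hQ : ∀ k, k ≤ Q k) :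
    GapHard c ↔ ∀ ε δ : ℚ, 0 < ε → 0 < δ → ∃ k : ℕ, 0 < k ∧
      Hard (Q k) (shifts (Q k) k) (c - ε) δ := by
  constructor
  · intro h ε δ hε hδ
    have hδ' : 0 < min δ 1 := lt_min hδ one_pos
    have hη := eta_pos ε (min δ 1) hδ'
    obtain ⟨k, hk⟩ := exists_nat_ge (max 1 (1 / eta ε (min δ 1)))
    have h1 : (1 : ℚ) ≤ k := (le_max_left _ _).trans hk
    have h2 : 1 / eta ε (min δ 1) ≤ k := (le_max_right _ _).trans hk
    have hk0 : 0 < k := by
      have : (1 : ℕ) ≤ k := by exact_mod_cast h1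
      omega
    refine ⟨k, hk0, (hard_of_gap c hc h ε (min δ 1) hε hδ' (min_le_right _ _) (Q k)
      (hk0.trans_le (hQ k)) _ ?_).mono le_rfl le_rfl (min_le_left _ _)⟩
    refine (spread_shifts (Q k) k hk0 (hQ k)).mono le_rfl ?_
    rw [div_le_iff₀ hη] at h2
    rw [div_le_iff₀ (by exact_mod_cast hk0)]
    linarith
  · intro h ε δ hε hδ
    obtain ⟨k, hk, hH⟩ := h ε δ hε hδ
    exact ⟨Q k, hk.trans_le (hQ k), hH.mono (Set.subset_univ _) le_rfl le_rfl⟩

end Pool.Agent.KS6_62.UU
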