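import Pool.Agent.KS6_62.UU.Game
import Pool.Graph.R_seed8.H642R2.TMSim
import Pool.Graph.R_seed8.NPC.Hard
import Pool.Graph.R_seed8.NPC.Num

/-!
Unique games as data, the promise problem with constraints from a set of permutations, and the
polynomial-time reduction.
-/

set_option autoImplicit false

namespace Pool.Agent.KS6_62.UU

open Finset Pool.Agent.NPC

/-- A game: the number `m` of left vertices `0, …, m - 1`, the number `m'` of right vertices
`0, …, m' - 1`, and the list of the edges `((u, v), t)`, where `t` is the table (list of the values)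
of the map from the labels of `u` to the labels of `v`. -/
abbrev Game : Type := ℕ × ℕ × List ((ℕ × ℕ) × List ℕ)

/-- the list of the edges -/
def Game.edges (G : Game) : List ((ℕ × ℕ) × List ℕ) := G.2.2

/-- The table of a permutation of the alphabet `0, …, q - 1`. -/
def table {q : ℕ} (r : Equiv.Perm (Fin q)) : List ℕ := List.ofFn fun a => (r a : ℕ)

/-- `G` is a unique game with alphabet `0, …, q - 1` (with at least one edge) all of whose
constraints are permutations from the set `Γ`. -/
def IsGame (q : ℕ) (Γ : Set (Equiv.Perm (Fin q))) (G : Game) : Prop :=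
  G.edges ≠ [] ∧ ∀ e ∈ G.edges, e.1.1 < G.1 ∧ e.1.2 < G.2.1 ∧ ∃ r ∈ Γ, e.2 = table r

/-- The number of the edges satisfied by the labelling `a` of the left vertices and the labelling
`b` of the right vertices. -/
def sat (q : ℕ) (G : Game) (a b : ℕ → Fin q) : ℕ :=
  G.edges.countP fun e => decide (e.2[(a e.1.1 : ℕ)]? = some (b e.1.2 : ℕ))

/-- **`NP`-hardness of the gap problem** `(c, s)` for the games with alphabet size `q` and
constraints from `Γ`: every language in `NP` has a polynomial-time many-one reduction whose values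
are such games, of value at least `c` for the members of the language and of value at most `s` for
the other words. -/
def Hard (q : ℕ) (Γ : Set (Equiv.Perm (Fin q))) (c s : ℚ) : Prop :=
  ∀ L : Set (List Bool), InNP L → ∃ f : List Bool → Game,
    PolyTime (fun x => bits (f x)) ∧ (∀ x, IsGame q Γ (f x)) ∧
    (∀ x ∈ L, ∃ a b : ℕ → Fin q, c * ((f x).edges.length : ℚ) ≤ sat q (f x) a b) ∧
    (∀ x, x ∉ L → ∀ a b : ℕ → Fin q, (sat q (f x) a b : ℚ) ≤ s * (f x).edges.length)

/-- Some distribution on `Γ` (uniform on a nonempty finite list of members of `Γ`) maps every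
letter to every letter with probability at most `η`. -/
def Spread (q : ℕ) (Γ : Set (Equiv.Perm (Fin q))) (η : ℚ) : Prop :=
  ∃ (N : ℕ) (r : Fin N → Equiv.Perm (Fin q)), 0 < N ∧ (∀ l, r l ∈ Γ) ∧
    ∀ a b, ((univ.filter fun l => r l a = b).card : ℚ) ≤ η * N

/-! ### Lists and sums -/

theorem countP_eq_sum {α : Type*} (p : α → Bool) : ∀ l : List α,
    l.countP p = (l.map fun a => if p a = true then 1 else 0).sum
  | [] => rfl
  | a :: l => by
    rw [List.countP_cons, countP_eq_sum p l, List.map_cons, List.sum_cons, add_comm]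

theorem countP_flatMap {α β : Type*} (p : β → Bool) (f : α → List β) : ∀ l : List α,
    (l.flatMap f).countP p = (l.map fun a => (f a).countP p).sum
  | [] => rfl
  | a :: l => by
    rw [List.flatMap_cons, List.countP_append, countP_flatMap p f l, List.map_cons, List.sum_cons]

theorem length_flatMap' {α β : Type*} (f : α → List β) : ∀ l : List α,
    (l.flatMap f).length = (l.map fun a => (f a).length).sum
  | [] => rfl
  | a :: l => by
    rw [List.flatMap_cons, List.length_append, length_flatMap' f l, List.map_cons, List.sum_cons]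

theorem table_inj {q : ℕ} : Function.Injective (table (q := q)) := by
  intro r r' h
  unfold table at h
  have h2 := List.ofFn_injective h
  ext a
  exact congrFun h2 a

theorem table_get {q : ℕ} (r : Equiv.Perm (Fin q)) (a b : Fin q) :
    (table r)[(a : ℕ)]? = some (b : ℕ) ↔ r a = b := by
  unfold table
  rw [List.getElem?_ofFn]
  simp only [a.2, dif_pos, Option.some.injEq]
  exact ⟨fun h => Fin.ext h, fun h => by rw [h]⟩

/-! ### The reduction -/

section Red

variable (q R M N : ℕ) [NeZero q] [NeZero M] (rs : Fin N → Equiv.Perm (Fin q))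

/-- the alphabet as a group -/
noncomputable def z (q : ℕ) [NeZero q] : Fin q ≃ ZMod q := (ZMod.finEquiv q).toEquiv

/-- the permutations on the group -/
noncomputable def rz {q N : ℕ} [NeZero q] (rs : Fin N → Equiv.Perm (Fin q)) (l : Fin N) :
    Equiv.Perm (ZMod q) := (z q).permCongr (rs l)

/-- the number of points of the product space -/
noncomputable def KK : ℕ := Fintype.card (X q R)

/-- numbering of the points -/
noncomputable def code : X q R ≃ Fin (KK q R) := Fintype.equivFin _

/-- the gadget for a permutation of the alphabet of the given game -/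
noncomputable def gad (π : Equiv.Perm (Fin R)) : List (ℕ × ℕ × List ℕ) :=
  (univ : Finset (Fin N × X q R × (Fin R → Fin M × ZMod q))).toList.map fun p =>
    ((code q R p.2.1 : ℕ),
      (code q R (fun j => rz rs p.1 (noise p.2.1 p.2.2 (π.symm j))) : ℕ), table (rs p.1))

/-- the gadgets for all permutations -/
noncomputable def gads : List (List ℕ × List (ℕ × ℕ × List ℕ)) :=
  (univ : Finset (Equiv.Perm (Fin R))).toList.map fun π => (table π, gad q R M N rs π)

/-- the new edges for an edge -/
noncomputable def newEdges (K : ℕ) (T : List (List ℕ × List (ℕ × ℕ × List ℕ)))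
    (e : (ℕ × ℕ) × List ℕ) : List ((ℕ × ℕ) × List ℕ) :=
  T.flatMap fun p => if e.2 = p.1 then
    p.2.map fun c => ((e.1.1 * K + c.1, e.1.2 * K + c.2.1), c.2.2) else []

/-- the reduction -/
noncomputable def red (K : ℕ) (T : List (List ℕ × List (ℕ × ℕ × List ℕ))) (G : Game) : Game :=
  (G.1 * K, G.2.1 * K, G.edges.flatMap (newEdges K T))

theorem poly_red (K : ℕ) (T : List (List ℕ × List (ℕ × ℕ × List ℕ))) : NPC.Poly (red K T) := by
  unfold red newEdges Game.edges
  refine NPC.Poly.pair (NPC.Poly.mul (NPC.Poly.fst NPC.Poly.id) (NPC.Poly.const _)) (NPC.Poly.pair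
    (NPC.Poly.mul (NPC.Poly.fst (NPC.Poly.snd NPC.Poly.id)) (NPC.Poly.const _)) (NPC.Poly.flatMap
      (NPC.Poly.snd (NPC.Poly.snd NPC.Poly.id)) ?_))
  refine NPC.Poly.flatMap (NPC.Poly.const _) ?_
  refine NPC.Poly.ite (NPC.Poly.decide_eq (NPC.Poly.snd (NPC.Poly.snd (NPC.Poly.fst NPC.Poly.id)))
    (NPC.Poly.fst (NPC.Poly.snd NPC.Poly.id))) ?_ (NPC.Poly.const _)
  refine NPC.Poly.map (NPC.Poly.snd (NPC.Poly.snd NPC.Poly.id)) ?_
  exact NPC.Poly.pair (NPC.Poly.pair
    (NPC.Poly.add (NPC.Poly.mul (NPC.Poly.fst (NPC.Poly.fst (NPC.Poly.snd (NPC.Poly.fst (NPC.Poly.fst NPC.Poly.id)))))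
      (NPC.Poly.const _)) (NPC.Poly.fst (NPC.Poly.snd NPC.Poly.id)))
    (NPC.Poly.add (NPC.Poly.mul (NPC.Poly.snd (NPC.Poly.fst (NPC.Poly.snd (NPC.Poly.fst (NPC.Poly.fst NPC.Poly.id)))))
      (NPC.Poly.const _)) (NPC.Poly.fst (NPC.Poly.snd (NPC.Poly.snd NPC.Poly.id)))))
    (NPC.Poly.snd (NPC.Poly.snd (NPC.Poly.snd NPC.Poly.id)))

/-- For an edge whose table is the table of a permutation. -/
theorem sum_newEdges (F : (ℕ × ℕ) × List ℕ → ℕ) (e : (ℕ × ℕ) × List ℕ)
    (π : Equiv.Perm (Fin R)) (he : e.2 = table π) :
    ((newEdges (KK q R) (gads q R M N rs) e).map F).sum =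
      ∑ l : Fin N, ∑ x : X q R, ∑ w : Fin R → Fin M × ZMod q,
        F ((e.1.1 * KK q R + code q R x, e.1.2 * KK q R +
          code q R (fun j => rz rs l (noise x w (π.symm j)))), table (rs l)) := by
  have h1 : ∀ {α β : Type} (f : α → List β) (G : β → ℕ) (l : List α),
      ((l.flatMap f).map G).sum = (l.map fun a => ((f a).map G).sum).sum := by
    intro α β f G l
    induction l with
    | nil => rfl
    | cons a l ih => rw [List.flatMap_cons, List.map_append, List.sum_append, ih, List.map_cons,
        List.sum_cons]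
  unfold newEdges gads
  rw [h1, List.map_map]
  rw [Finset.sum_map_toList]
  rw [Finset.sum_eq_single π]
  · simp only [Function.comp, he, if_true]
    unfold gad
    rw [List.map_map, List.map_map, Finset.sum_map_toList, Fintype.sum_prod_type]
    refine sum_congr rfl fun l _ => ?_
    rw [Fintype.sum_prod_type]
    rfl
  · intro π' _ hne
    simp only [Function.comp]
    rw [if_neg]
    · rfl
    · rw [he]
      intro h
      exact hne (table_inj h).symm
  · simp

end Red

end Pool.Agent.KS6_62.UU
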