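import Pool.Agent.KS6_62.UU.Four

/-!
Fourier coefficients of maps `(ZMod q) ^ n → ZMod q`, noise, and small set expansion for maps with
small influences.
-/

set_option autoImplicit false

namespace Pool.Agent.KS6_62.UU

open Finset ComplexConjugate QQ

variable {q : ℕ} [NeZero q] {n : ℕ}

omit [NeZero q] in
theorem pr_comm (S c : X q n) : pr S c = pr c S := by
  unfold pr
  exact sum_congr rfl fun i _ => mul_comm _ _

theorem ch_comm (S c : X q n) : ch S c = ch c S := by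
  unfold ch
  rw [pr_comm]

/-- Orthogonality. -/
theorem orth (T : X q n) : ∑ y : X q n, ch T y = if T = 0 then (q : ℂ) ^ n else 0 := by
  split_ifs with h
  · subst h
    simp [ch_zero, ZMod.card]
  · refine sum_ch (AddMonoidHom.id (X q n)) T fun h2 => h ?_
    ext i
    have h3 := h2 (Pi.single i 1)
    simp only [AddMonoidHom.id_apply, pr] at h3
    simpa [Pi.single_apply] using h3

theorem orth' (x y : X q n) : ∑ S : X q n, ch S x * conj (ch S y) =
    if x = y then (q : ℂ) ^ n else 0 := by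
  have h1 : ∀ S : X q n, ch S x * conj (ch S y) = ch (x - y) S := by
    intro S
    rw [ch_comm S x, ch_comm S y, ch_sub]
  simp only [h1, orth, sub_eq_zero]

/-- Parseval. -/
theorem parseval (a b : X q n → ℂ) :
    ∑ x : X q n, (∑ S, ch S x * a S) * conj (∑ S, ch S x * b S) =
      (q : ℂ) ^ n * ∑ S, a S * conj (b S) := by
  have h1 : ∀ x : X q n, (∑ S, ch S x * a S) * conj (∑ S, ch S x * b S) =
      ∑ S, ∑ S', a S * conj (b S') * ch (S - S') x := by
    intro x
    rw [map_sum, sum_mul_sum]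
    refine sum_congr rfl fun S _ => sum_congr rfl fun S' _ => ?_
    rw [ch_sub, map_mul]
    ring
  simp only [h1]
  rw [sum_comm, mul_sum]
  refine sum_congr rfl fun S _ => ?_
  rw [sum_comm, sum_eq_single S]
  · rw [← mul_sum, orth, sub_self, if_pos rfl]
    ring
  · intro S' _ hne
    rw [← mul_sum, orth, if_neg (sub_ne_zero.2 (Ne.symm hne)), mul_zero]
  · simp

/-- the indicator of a label -/
noncomputable def ind (F : X q n → ZMod q) (a : ZMod q) (x : X q n) : ℂ := if F x = a then 1 else 0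

/-- the Fourier coefficients of the indicators of the labels -/
noncomputable def cf (F : X q n → ZMod q) (S : X q n) (a : ZMod q) : ℂ :=
  ((q : ℂ) ^ n)⁻¹ * ∑ y, conj (ch S y) * ind F a y

theorem qn_ne : (q : ℂ) ^ n ≠ 0 := pow_ne_zero _ (Nat.cast_ne_zero.2 (NeZero.ne q))

theorem qn_pos : (0 : ℝ) < (q : ℝ) ^ n := pow_pos (Nat.cast_pos.2 (NeZero.pos q)) _

theorem inv (F : X q n → ZMod q) (a : ZMod q) (x : X q n) :
    ∑ S, ch S x * cf F S a = ind F a x := by
  unfold cf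
  have h1 : ∀ S : X q n, ch S x * (((q : ℂ) ^ n)⁻¹ * ∑ y, conj (ch S y) * ind F a y) =
      ((q : ℂ) ^ n)⁻¹ * ∑ y, ind F a y * (ch S x * conj (ch S y)) := by
    intro S
    rw [mul_left_comm, mul_sum]
    congr 1
    exact sum_congr rfl fun y _ => by ring
  simp only [h1]
  rw [← mul_sum, sum_comm]
  simp only [← mul_sum, orth']
  rw [sum_eq_single x]
  · rw [if_pos rfl, mul_comm (ind F a x), inv_mul_cancel_left₀ qn_ne]
  · intro y _ hne
    rw [if_neg (Ne.symm hne), mul_zero]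
  · simp

/-- the frequency of a label -/
noncomputable def mu (F : X q n → ZMod q) (a : ZMod q) : ℝ :=
  ((univ.filter fun x => F x = a).card : ℝ) / (q : ℝ) ^ n

theorem mu_nonneg (F : X q n → ZMod q) (a : ZMod q) : 0 ≤ mu F a := by
  unfold mu
  positivity

theorem sum_mu (F : X q n → ZMod q) : ∑ a, mu F a = 1 := by
  unfold mu
  rw [← sum_div]
  have h1 : ∑ a, ((univ.filter fun x => F x = a).card : ℝ) = (q : ℝ) ^ n := by
    have := card_eq_sum_card_fiberwise (f := F) (s := (univ : Finset (X q n))) (t := univ)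
      (fun _ _ => mem_coe.2 (mem_univ _))
    rw [← Nat.cast_sum, ← this]
    simp [ZMod.card]
  rw [h1, div_self qn_pos.ne']

theorem mu_le_one (F : X q n → ZMod q) (a : ZMod q) : mu F a ≤ 1 := by
  rw [← sum_mu F]
  exact single_le_sum (fun b _ => mu_nonneg F b) (mem_univ a)

theorem sum_ind (F : X q n → ZMod q) (a : ZMod q) :
    ∑ x, ‖ind F a x‖ ^ 2 = (q : ℝ) ^ n * mu F a := by
  unfold mu ind
  rw [mul_div_cancel₀ _ qn_pos.ne', card_filter]
  push_cast
  refine sum_congr rfl fun x _ => ?_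
  split_ifs <;> simp

theorem norm_cf (F : X q n → ZMod q) (a : ZMod q) : ∑ S, ‖cf F S a‖ ^ 2 = mu F a := by
  have h1 := parseval (fun S => cf F S a) (fun S => cf F S a)
  simp only [inv] at h1
  have h2 : ((∑ x, ‖ind F a x‖ ^ 2 : ℝ) : ℂ) = (((q : ℝ) ^ n * ∑ S, ‖cf F S a‖ ^ 2 : ℝ) : ℂ) := by
    push_cast
    simp only [← Complex.mul_conj']
    rw [h1]
  have h3 : ∑ x, ‖ind F a x‖ ^ 2 = (q : ℝ) ^ n * ∑ S, ‖cf F S a‖ ^ 2 := by exact_mod_cast h2
  rw [sum_ind] at h3
  exact (mul_left_cancel₀ qn_pos.ne' h3).symm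

/-- rerandomisation of the coordinates for which the first component of the noise is zero -/
def noise {M : ℕ} [NeZero M] (x : X q n) (w : Fin n → Fin M × ZMod q) : X q n :=
  fun i => if (w i).1 = 0 then (w i).2 else x i

omit [NeZero q] in
theorem addChar_sum {ι : Type*} (ψ : AddChar (ZMod q) ℂ) (s : Finset ι) (f : ι → ZMod q) :
    ψ (∑ i ∈ s, f i) = ∏ i ∈ s, ψ (f i) := by
  classical
  induction s using Finset.induction_on with
  | empty => simp
  | insert i s hi ih => rw [sum_insert hi, prod_insert hi, AddChar.map_add_eq_mul, ih]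

theorem sum_noise {M : ℕ} [NeZero M] (S x : X q n) :
    ∑ w : Fin n → Fin M × ZMod q, ch S (noise x w) =
      ((M * q : ℕ) : ℂ) ^ n * (((1 - 1 / M : ℝ) : ℂ) ^ wt S * ch S x) := by
  have hM : (M : ℂ) ≠ 0 := Nat.cast_ne_zero.2 (NeZero.ne M)
  have h1 : ∀ y : X q n, ch S y = ∏ i, ZMod.stdAddChar (S i * y i) := by
    intro y
    unfold ch pr
    rw [addChar_sum]
  have h2 : ∀ i : Fin n, ∑ p : Fin M × ZMod q,
      (ZMod.stdAddChar (S i * (if p.1 = 0 then p.2 else x i)) : ℂ) =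
      (M * q : ℕ) * ((if S i = 0 then 1 else ((1 - 1 / M : ℝ) : ℂ)) *
        ZMod.stdAddChar (S i * x i)) := by
    intro i
    rw [Fintype.sum_prod_type, ← add_sum_erase _ _ (mem_univ (0 : Fin M))]
    simp only [if_true]
    rw [one_orth]
    have h3 : ∀ t ∈ univ.erase (0 : Fin M), ∑ z : ZMod q,
        (ZMod.stdAddChar (S i * (if t = 0 then z else x i)) : ℂ) =
        q * ZMod.stdAddChar (S i * x i) := by
      intro t ht
      rw [mem_erase] at ht
      simp [ht.1, ZMod.card]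
    rw [sum_congr rfl h3, sum_const, card_erase_of_mem (mem_univ _), card_univ, Fintype.card_fin,
      nsmul_eq_mul, Nat.cast_sub (NeZero.one_le)]
    by_cases h : S i = 0
    · simp only [h, if_true, zero_mul, AddChar.map_zero_eq_one]
      push_cast
      ring
    · simp only [h, if_false]
      push_cast
      field_simp
      ring
  have h4 : ∀ w : Fin n → Fin M × ZMod q, ch S (noise x w) =
      ∏ i, (fun (i : Fin n) (p : Fin M × ZMod q) =>
        (ZMod.stdAddChar (S i * (if p.1 = 0 then p.2 else x i)) : ℂ)) i (w i) := by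
    intro w
    rw [h1]
    rfl
  have h5 := prod_univ_sum (fun _ : Fin n => (univ : Finset (Fin M × ZMod q)))
    (fun (i : Fin n) (p : Fin M × ZMod q) =>
        (ZMod.stdAddChar (S i * (if p.1 = 0 then p.2 else x i)) : ℂ))
  rw [Fintype.piFinset_univ] at h5
  rw [sum_congr rfl (fun w _ => h4 w), ← h5]
  simp only [h2]
  rw [prod_mul_distrib, prod_mul_distrib, ← h1, prod_const, card_univ, Fintype.card_fin]
  congr 2
  unfold wt
  rw [← prod_pow_eq_pow_sum]
  refine prod_congr rfl fun i _ => ?_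
  by_cases h : S i = 0 <;> simp [h]

/-- The number of agreements of two maps under noise. -/
theorem agree {M : ℕ} [NeZero M] (F H : X q n → ZMod q) :
    ∑ x : X q n, ∑ w : Fin n → Fin M × ZMod q, (if F x = H (noise x w) then (1 : ℝ) else 0) =
      (q : ℝ) ^ n * ((M * q : ℕ) : ℝ) ^ n * ∑ a, ∑ S, (1 - 1 / M : ℝ) ^ wt S *
        (cf H S a * conj (cf F S a)).re := by
  have h1 : ∀ x : X q n, ∀ w : Fin n → Fin M × ZMod q,
      (if F x = H (noise x w) then (1 : ℂ) else 0) =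
      ∑ a, ind H a (noise x w) * conj (ind F a x) := by
    intro x w
    rw [sum_eq_single (F x)]
    · unfold ind
      by_cases h : F x = H (noise x w)
      · simp [h]
      · simp [h, Ne.symm h]
    · intro a _ ha
      unfold ind
      simp [Ne.symm ha]
    · simp
  have h4 : ∀ a : ZMod q, ∑ x : X q n, ∑ w : Fin n → Fin M × ZMod q,
      ind H a (noise x w) * conj (ind F a x) =
      (q : ℂ) ^ n * ((M * q : ℕ) : ℂ) ^ n * ∑ S, ((1 - 1 / M : ℝ) : ℂ) ^ wt S *
      (cf H S a * conj (cf F S a)) := by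
    intro a
    have h5 : ∀ x : X q n, ∑ w : Fin n → Fin M × ZMod q, ind H a (noise x w) =
        ∑ S, ch S x * (((M * q : ℕ) : ℂ) ^ n * ((1 - 1 / M : ℝ) : ℂ) ^ wt S * cf H S a) := by
      intro x
      simp only [← inv H a]
      rw [sum_comm]
      refine sum_congr rfl fun S _ => ?_
      rw [← sum_mul, sum_noise]
      ring
    have h6 : ∀ x : X q n, ∑ w : Fin n → Fin M × ZMod q,
        ind H a (noise x w) * conj (ind F a x) =
        (∑ S, ch S x * (((M * q : ℕ) : ℂ) ^ n * ((1 - 1 / M : ℝ) : ℂ) ^ wt S * cf H S a)) *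
          conj (∑ S, ch S x * cf F S a) := by
      intro x
      rw [← sum_mul, h5, inv]
    simp only [h6]
    rw [parseval, mul_assoc, mul_sum (a := ((M * q : ℕ) : ℂ) ^ n)]
    congr 1
    refine sum_congr rfl fun S _ => ?_
    ring
  have h2 : ∑ x : X q n, ∑ w : Fin n → Fin M × ZMod q,
      (if F x = H (noise x w) then (1 : ℂ) else 0) =
      (q : ℂ) ^ n * ((M * q : ℕ) : ℂ) ^ n * ∑ a, ∑ S, ((1 - 1 / M : ℝ) : ℂ) ^ wt S *
        (cf H S a * conj (cf F S a)) := by
    calc ∑ x : X q n, ∑ w : Fin n → Fin M × ZMod q,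
        (if F x = H (noise x w) then (1 : ℂ) else 0)
        = ∑ x : X q n, ∑ w : Fin n → Fin M × ZMod q,
          ∑ a, ind H a (noise x w) * conj (ind F a x) :=
          sum_congr rfl fun x _ => sum_congr rfl fun w _ => h1 x w
      _ = ∑ x : X q n, ∑ a, ∑ w : Fin n → Fin M × ZMod q,
          ind H a (noise x w) * conj (ind F a x) :=
          sum_congr rfl fun x _ => sum_comm
      _ = ∑ a, ∑ x : X q n, ∑ w : Fin n → Fin M × ZMod q,
          ind H a (noise x w) * conj (ind F a x) := sum_comm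
      _ = _ := by
          rw [mul_sum]
          exact sum_congr rfl fun a _ => h4 a
  have h3 := congrArg Complex.re h2
  have h7 : ∀ x : X q n, ∀ w : Fin n → Fin M × ZMod q,
      (if F x = H (noise x w) then (1 : ℂ) else 0) =
        ((if F x = H (noise x w) then (1 : ℝ) else 0 : ℝ) : ℂ) := by
    intro x w
    split_ifs <;> simp
  have h8 : ∀ a : ZMod q, ∀ S : X q n, (((1 - 1 / M : ℝ) : ℂ) ^ wt S *
      (cf H S a * conj (cf F S a))).re = (1 - 1 / M : ℝ) ^ wt S *
        (cf H S a * conj (cf F S a)).re := by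
    intro a S
    rw [← Complex.ofReal_pow, Complex.re_ofReal_mul]
  have h9 : (q : ℂ) ^ n * ((M * q : ℕ) : ℂ) ^ n =
      (((q : ℝ) ^ n * ((M * q : ℕ) : ℝ) ^ n : ℝ) : ℂ) := by push_cast; ring
  rw [h9, Complex.re_ofReal_mul] at h3
  simp only [h7, Complex.re_sum, Complex.ofReal_re, h8] at h3
  exact h3

/-! ### Small set expansion -/

section SSE

variable (F : X q n → ZMod q) (a : ZMod q) (P : X q n → Prop) [DecidablePred P]

/-- the damped norm of a part of the Fourier expansion -/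
noncomputable def A0 : ℝ := ∑ S, if P S then (1 / 4 : ℝ) ^ wt S * ‖cf F S a‖ ^ 2 else 0

theorem A0_nonneg : 0 ≤ A0 F a P := by
  unfold A0
  refine sum_nonneg fun S _ => ?_
  split_ifs <;> positivity

theorem sse (d : ℕ) (τ : ℝ) (hτ : 0 ≤ τ) (hd : ∀ S, P S → wt S ≤ d)
    (hi : ∀ i, ∑ S, (if P S ∧ S i ≠ 0 then ‖cf F S a‖ ^ 2 else 0) ≤ τ) :
    A0 F a P ^ 3 ≤ mu F a ^ 3 * (A0 F a P + τ * (1 + q : ℝ) ^ d) := by
  set A := A0 F a P with hA
  have hA0 : 0 ≤ A := A0_nonneg F a P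
  set Q : ℝ := (q : ℝ) ^ n with hQ
  have hQ0 : 0 < Q := qn_pos
  -- the test function
  set G : X q n → ℂ := fun x => ∑ S, ch S x * (if P S then (1 / 4 : ℂ) ^ wt S * cf F S a else 0)
    with hG
  -- the pairing
  have e1 : ∑ x, ind F a x * conj (G x) = ((Q * A : ℝ) : ℂ) := by
    have h1 := parseval (fun S => cf F S a)
      (fun S => if P S then (1 / 4 : ℂ) ^ wt S * cf F S a else 0)
    simp only [inv] at h1
    rw [hG, h1, hA, A0, hQ]
    push_cast
    congr 1
    refine sum_congr rfl fun S _ => ?_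
    by_cases h : P S
    · simp only [h, if_true]
      rw [map_mul, map_pow, map_div₀, map_one, Complex.conj_ofNat]
      push_cast
      rw [← Complex.mul_conj']
      ring
    · simp [h]
  -- the fourth norm
  have e2 : ∑ x, ‖G x‖ ^ 4 ≤ Q * (A ^ 2 + τ * (1 + q : ℝ) ^ d * A) := by
    have h1 := four n (κ := Unit)
      (fun S _ => if P S then (1 / 2 : ℂ) ^ wt S * cf F S a else 0)
    have h2 : ∀ x : X q n, nsq (ev (fun S (_ : Unit) => (1 / 2 : ℂ) ^ wt S *
        (if P S then (1 / 2 : ℂ) ^ wt S * cf F S a else 0)) x) = ‖G x‖ ^ 2 := by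
      intro x
      simp only [nsq, ev, univ_unique, sum_singleton, hG]
      congr 3
      ext S
      by_cases h : P S
      · simp only [h, if_true]
        rw [← mul_assoc ((1 / 2 : ℂ) ^ wt S), ← mul_pow]
        norm_num
      · simp [h]
    have h3 : (fun S => nsq (fun _ : Unit => if P S then (1 / 2 : ℂ) ^ wt S * cf F S a else 0)) =
        fun S => if P S then (1 / 4 : ℝ) ^ wt S * ‖cf F S a‖ ^ 2 else 0 := by
      ext S
      simp only [nsq, univ_unique, sum_singleton]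
      by_cases h : P S
      · simp only [h, if_true]
        rw [norm_mul, norm_pow, mul_pow, ← pow_mul, mul_comm (wt S) 2, pow_mul]
        norm_num
      · simp [h]
    simp only [h2, h3] at h1
    have h4 := RR_le' n (fun S => if P S then (1 / 4 : ℝ) ^ wt S * ‖cf F S a‖ ^ 2 else 0) τ d
      (fun S => by split_ifs <;> positivity) hτ (fun i => by
        refine le_trans (sum_le_sum fun S _ => ?_) (hi i)
        by_cases h : S i = 0
        · simp [h]
        · by_cases h' : P S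
          · simp only [h, h', if_false, if_true, ne_eq, not_false_eq_true, and_self]
            have : (1 / 4 : ℝ) ^ wt S ≤ 1 := pow_le_one₀ (by norm_num) (by norm_num)
            nlinarith [sq_nonneg ‖cf F S a‖]
          · simp [h'])
      (fun S hS => by
        by_cases h' : P S
        · exact hd S h'
        · simp [h'] at hS)
    calc ∑ x, ‖G x‖ ^ 4 = ∑ x, (‖G x‖ ^ 2) ^ 2 := sum_congr rfl fun x _ => by ring
      _ ≤ _ := h1
      _ ≤ _ := mul_le_mul_of_nonneg_left h4 hQ0.le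
  have hind : ∀ x, ‖ind F a x‖ ^ 2 = ‖ind F a x‖ := by
    intro x
    unfold ind
    split_ifs <;> simp
  have hμ : ∑ x, ‖ind F a x‖ = Q * mu F a := by
    rw [← sum_ind]
    exact (sum_congr rfl fun x _ => hind x).symm
  -- Cauchy-Schwarz twice
  have e3 : (Q * A) ^ 2 ≤ (Q * mu F a) * ∑ x, ‖ind F a x‖ * ‖G x‖ ^ 2 := by
    have h1 : Q * A ≤ ∑ x, ‖ind F a x‖ * (‖ind F a x‖ * ‖G x‖) := by
      have h2 : Q * A = ‖∑ x, ind F a x * conj (G x)‖ := by
        rw [e1, Complex.norm_real, Real.norm_of_nonneg (by positivity)]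
      rw [h2]
      refine (norm_sum_le _ _).trans (sum_le_sum fun x _ => ?_)
      rw [norm_mul, RCLike.norm_conj, ← mul_assoc, ← sq, hind]
    calc (Q * A) ^ 2 ≤ (∑ x, ‖ind F a x‖ * (‖ind F a x‖ * ‖G x‖)) ^ 2 := by gcongr
      _ ≤ (∑ x, ‖ind F a x‖ ^ 2) * ∑ x, (‖ind F a x‖ * ‖G x‖) ^ 2 :=
        sum_mul_sq_le_sq_mul_sq _ _ _
      _ = _ := by
        rw [sum_ind]
        congr 1
        refine sum_congr rfl fun x _ => ?_
        rw [mul_pow, hind]
  have e4 : (∑ x, ‖ind F a x‖ * ‖G x‖ ^ 2) ^ 2 ≤ (Q * mu F a) * ∑ x, ‖G x‖ ^ 4 := by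
    calc (∑ x, ‖ind F a x‖ * ‖G x‖ ^ 2) ^ 2
        ≤ (∑ x, ‖ind F a x‖ ^ 2) * ∑ x, (‖G x‖ ^ 2) ^ 2 := sum_mul_sq_le_sq_mul_sq _ _ _
      _ = _ := by
        rw [sum_ind]
        congr 1
        exact sum_congr rfl fun x _ => by ring
  have hm := mu_nonneg F a
  have e5 : (Q * A) ^ 4 ≤ (Q * mu F a) ^ 3 * (Q * (A ^ 2 + τ * (1 + q : ℝ) ^ d * A)) := by
    have h0 : 0 ≤ ∑ x, ‖ind F a x‖ * ‖G x‖ ^ 2 := sum_nonneg fun x _ => by positivity
    calc (Q * A) ^ 4 = ((Q * A) ^ 2) ^ 2 := by ring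
      _ ≤ ((Q * mu F a) * ∑ x, ‖ind F a x‖ * ‖G x‖ ^ 2) ^ 2 := by gcongr
      _ = (Q * mu F a) ^ 2 * (∑ x, ‖ind F a x‖ * ‖G x‖ ^ 2) ^ 2 := by ring
      _ ≤ (Q * mu F a) ^ 2 * ((Q * mu F a) * ∑ x, ‖G x‖ ^ 4) := by gcongr
      _ ≤ (Q * mu F a) ^ 2 * ((Q * mu F a) * (Q * (A ^ 2 + τ * (1 + q : ℝ) ^ d * A))) := by
        gcongr
      _ = _ := by ring
  rcases hA0.eq_or_lt with h | h
  · rw [← h]
    have : 0 ≤ mu F a ^ 3 * (τ * (1 + q : ℝ) ^ d) := by positivity
    simpa using this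
  · have h6 : (Q ^ 4 * A) * A ^ 3 ≤ (Q ^ 4 * A) *
        (mu F a ^ 3 * (A + τ * (1 + q : ℝ) ^ d)) := by
      calc (Q ^ 4 * A) * A ^ 3 = (Q * A) ^ 4 := by ring
        _ ≤ _ := e5
        _ = _ := by ring
    exact le_of_mul_le_mul_left h6 (by positivity)

/-- weighted power mean -/
theorem pow_mean {ι : Type*} (s : Finset ι) (w z : ι → ℝ) (hw : ∀ i ∈ s, 0 ≤ w i)
    (hz : ∀ i ∈ s, 0 ≤ z i) (k : ℕ) :
    (∑ i ∈ s, w i * z i) ^ (k + 1) ≤ (∑ i ∈ s, w i) ^ k * ∑ i ∈ s, w i * z i ^ (k + 1) := by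
  set W := ∑ i ∈ s, w i with hW
  have hW0 : 0 ≤ W := sum_nonneg hw
  rcases hW0.eq_or_lt with h | h
  · have h1 : ∀ i ∈ s, w i = 0 := (sum_eq_zero_iff_of_nonneg hw).1 (hW ▸ h.symm)
    rw [sum_eq_zero (fun i hi => by rw [h1 i hi, zero_mul]),
      sum_eq_zero (s := s) (f := fun i => w i * z i ^ (k + 1)) (fun i hi => by
        rw [h1 i hi, zero_mul])]
    simp
  · have h1 := Real.pow_arith_mean_le_arith_mean_pow s (fun i => w i / W) z
      (fun i hi => div_nonneg (hw i hi) hW0) (by rw [← sum_div, div_self h.ne']) hz (k + 1)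
    have h2 : ∑ i ∈ s, w i / W * z i = (∑ i ∈ s, w i * z i) / W := by
      rw [sum_div]
      exact sum_congr rfl fun i _ => by ring
    have h3 : ∑ i ∈ s, w i / W * z i ^ (k + 1) = (∑ i ∈ s, w i * z i ^ (k + 1)) / W := by
      rw [sum_div]
      exact sum_congr rfl fun i _ => by ring
    rw [h2, h3, div_pow, div_le_div_iff₀ (by positivity) h] at h1
    have h4 : W * (∑ i ∈ s, w i * z i) ^ (k + 1) ≤
        W * (W ^ k * ∑ i ∈ s, w i * z i ^ (k + 1)) := by
      calc _ = (∑ i ∈ s, w i * z i) ^ (k + 1) * W := mul_comm _ _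
        _ ≤ _ := h1
        _ = _ := by ring
    exact le_of_mul_le_mul_left h4 h

/-- the stability of a part of the Fourier expansion -/
noncomputable def St (ρ : ℝ) : ℝ := ∑ S, if P S then ρ ^ wt S * ‖cf F S a‖ ^ 2 else 0

theorem St_nonneg (ρ : ℝ) (hρ : 0 ≤ ρ) : 0 ≤ St F a P ρ := by
  unfold St
  refine sum_nonneg fun S _ => ?_
  split_ifs <;> positivity

theorem St_le (ρ : ℝ) (hρ : 0 ≤ ρ) (hρ1 : ρ ≤ 1) : St F a P ρ ≤ mu F a := by
  rw [← norm_cf]
  unfold St
  refine sum_le_sum fun S _ => ?_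
  split_ifs
  · have : ρ ^ wt S ≤ 1 := pow_le_one₀ hρ hρ1
    nlinarith [sq_nonneg ‖cf F S a‖]
  · positivity

/-- **Small sets without influential coordinates expand.** -/
theorem stab (d k : ℕ) (τ ρ c e : ℝ) (hτ : 0 ≤ τ) (hd : ∀ S, P S → wt S ≤ d)
    (hi : ∀ i, ∑ S, (if P S ∧ S i ≠ 0 then ‖cf F S a‖ ^ 2 else 0) ≤ τ)
    (hρ : 0 ≤ ρ) (hρk : ρ ^ (k + 1) ≤ 1 / 4) (he : 0 ≤ e)
    (hτe : τ * (1 + q : ℝ) ^ d ≤ e ^ (k + 1)) (hm : 2 * mu F a ≤ c ^ (4 * (k + 1))) :
    St F a P ρ ≤ c ^ 2 * mu F a + e := by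
  have hm0 := mu_nonneg F a
  have hm1 := mu_le_one F a
  have hX0 := St_nonneg F a P ρ hρ
  have hA0 := A0_nonneg F a P
  set A := A0 F a P with hA
  set Y := St F a P ρ with hY
  have h1 : Y ^ (k + 1) ≤ mu F a ^ k * A := by
    have h2 := pow_mean (univ.filter P) (fun S => ‖cf F S a‖ ^ 2) (fun S => ρ ^ wt S)
      (fun _ _ => by positivity) (fun _ _ => by positivity) k
    have h3 : ∑ S ∈ univ.filter P, ‖cf F S a‖ ^ 2 * ρ ^ wt S = Y := by
      rw [hY, St, sum_filter]
      refine sum_congr rfl fun S _ => ?_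
      split_ifs <;> ring
    have h4 : ∑ S ∈ univ.filter P, ‖cf F S a‖ ^ 2 * (ρ ^ wt S) ^ (k + 1) ≤ A := by
      rw [hA, A0, sum_filter]
      refine sum_le_sum fun S _ => ?_
      split_ifs
      · rw [mul_comm, ← pow_mul, mul_comm (wt S), pow_mul]
        gcongr
      · exact le_rfl
    have h5 : ∑ S ∈ univ.filter P, ‖cf F S a‖ ^ 2 ≤ mu F a := by
      rw [← norm_cf]
      exact sum_le_sum_of_subset_of_nonneg (filter_subset _ _) fun _ _ _ => by positivity
    have h6 : 0 ≤ ∑ S ∈ univ.filter P, ‖cf F S a‖ ^ 2 := sum_nonneg fun _ _ => by positivity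
    rw [h3] at h2
    refine h2.trans ?_
    gcongr
  by_cases h2 : A ≤ τ * (1 + q : ℝ) ^ d
  · have h3 : Y ^ (k + 1) ≤ e ^ (k + 1) := by
      calc Y ^ (k + 1) ≤ mu F a ^ k * A := h1
        _ ≤ 1 * A := by
          gcongr
          exact pow_le_one₀ hm0 hm1
        _ = A := one_mul _
        _ ≤ _ := h2.trans hτe
    have h4 : Y ≤ e := le_of_pow_le_pow_left₀ (Nat.succ_ne_zero k) he h3
    nlinarith [mul_nonneg (sq_nonneg c) hm0]
  · push Not at h2
    have h3 := sse F a P d τ hτ hd hi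
    rw [← hA] at h3
    have hq0 : (0 : ℝ) ≤ q := Nat.cast_nonneg _
    have hApos : 0 < A := lt_of_le_of_lt (by positivity) h2
    have h4 : A ^ 2 ≤ 2 * mu F a ^ 3 := by
      have h5 : A * A ^ 2 ≤ A * (2 * mu F a ^ 3) := by
        calc A * A ^ 2 = A ^ 3 := by ring
          _ ≤ _ := h3
          _ ≤ mu F a ^ 3 * (A + A) := by gcongr
          _ = _ := by ring
      exact le_of_mul_le_mul_left h5 hApos
    have h5 : Y ^ (2 * (k + 1)) ≤ (c ^ 2 * mu F a) ^ (2 * (k + 1)) := by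
      calc Y ^ (2 * (k + 1)) = (Y ^ (k + 1)) ^ 2 := by rw [← pow_mul, mul_comm]
        _ ≤ (mu F a ^ k * A) ^ 2 := by gcongr
        _ = (mu F a ^ k) ^ 2 * A ^ 2 := by ring
        _ ≤ (mu F a ^ k) ^ 2 * (2 * mu F a ^ 3) := by gcongr
        _ = mu F a ^ (2 * (k + 1)) * (2 * mu F a) := by ring
        _ ≤ mu F a ^ (2 * (k + 1)) * c ^ (4 * (k + 1)) := by gcongr
        _ = _ := by
          rw [mul_pow, ← pow_mul, mul_comm]
          congr 2
          ring
    have h6 : Y ≤ c ^ 2 * mu F a :=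
      le_of_pow_le_pow_left₀ (by omega) (by positivity) h5
    linarith

end SSE

end Pool.Agent.KS6_62.UU
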